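import Mathlib

/-!
Invariants of the partial injective maps of a set `X` (elements of the symmetric inverse monoid).

A partial injective map `α : X ≃. X` is viewed as the digraph on `X` with an edge from `a` to `a α`
for every `a` in the domain.  Its connected components are cycles, double rays (`ℤ`), right rays
(an initial point, no terminal point), left rays (a terminal point, no initial point) and finite
chains (a point outside the domain and the image is a chain with one point).
-/

universe u

open Cardinal

namespace Pool.Agent.ISym

variable {X : Type u}

/-- the domain of a partial injective map -/
def dom (α : X ≃. X) : Set X := {x | ∃ y, y ∈ α x}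

/-- the image of a partial injective map -/
def im (α : X ≃. X) : Set X := {y | ∃ x, y ∈ α x}

/-- the connected component of `x` in the digraph with the edges `a → a α` -/
def component (α : X ≃. X) (x : X) : Set X := {y | Relation.EqvGen (fun a b => b ∈ α a) x y}

/-- the set of the connected components of the digraph of `α` -/
def components (α : X ≃. X) : Set (Set X) := Set.range (component α)

/-- The number of `k`-cycles: components with exactly `k` points inside the domain. -/
noncomputable def numCycles (α : X ≃. X) (k : ℕ) : Cardinal.{u} :=
  #{C : Set X // C ∈ components α ∧ C ⊆ dom α ∧ C.encard = k}

/-- The number of double rays: infinite components without a terminal point (a point outside the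
domain) and without an initial point (a point outside the image). -/
noncomputable def numDoubleRays (α : X ≃. X) : Cardinal.{u} :=
  #{C : Set X // C ∈ components α ∧ C.Infinite ∧ C ⊆ dom α ∧ C ⊆ im α}

/-- The number of infinite components without a terminal point (double rays and right rays). -/
noncomputable def numEndlessRays (α : X ≃. X) : Cardinal.{u} :=
  #{C : Set X // C ∈ components α ∧ C.Infinite ∧ C ⊆ dom α}

/-- The number of left rays: infinite components with a terminal point. -/
noncomputable def numLeftRays (α : X ≃. X) : Cardinal.{u} :=
  #{C : Set X // C ∈ components α ∧ C.Infinite ∧ ¬ C ⊆ dom α}

/-- The number of components with a terminal point and more than `l` points: the left rays and the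
finite chains with more than `l` points. -/
noncomputable def numEnding (α : X ≃. X) (l : ℕ) : Cardinal.{u} :=
  #{C : Set X // C ∈ components α ∧ ¬ C ⊆ dom α ∧ (l : ℕ∞) < C.encard}

end Pool.Agent.ISym
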