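import Mathlib
import Pool.Agent.ISym.Defs

/-!
Components of a partial injective map and integer steps along it.
-/

universe u

namespace Pool.Agent.ISym

variable {X : Type u}

theorem edge_fun (α : X ≃. X) {a b c : X} (h1 : b ∈ α a) (h2 : c ∈ α a) : b = c :=
  Option.mem_unique h1 h2

theorem edge_inj (α : X ≃. X) {a b c : X} (h1 : c ∈ α a) (h2 : c ∈ α b) : a = b :=
  α.inj h1 h2

/-- `n` steps forward -/
def NStep (α : X ≃. X) : ℕ → X → X → Prop
  | 0, x, y => x = y
  | n + 1, x, y => ∃ z, NStep α n x z ∧ y ∈ α z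

theorem nstep_zero (α : X ≃. X) (x : X) : NStep α 0 x x := rfl

theorem nstep_one {α : X ≃. X} {x y : X} : NStep α 1 x y ↔ y ∈ α x := by
  constructor
  · rintro ⟨z, hz, h⟩
    have : x = z := hz
    rwa [this]
  · intro h
    exact ⟨x, rfl, h⟩

theorem nstep_fun {α : X ≃. X} {n : ℕ} : ∀ {x y z : X}, NStep α n x y → NStep α n x z → y = z := by
  induction n with
  | zero => intro x y z h1 h2; exact h1.symm.trans h2
  | succ n ih =>
    rintro x y z ⟨a, ha, h1⟩ ⟨b, hb, h2⟩
    have := ih ha hb
    subst this
    exact edge_fun α h1 h2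

theorem nstep_inj {α : X ≃. X} {n : ℕ} : ∀ {x y z : X}, NStep α n x z → NStep α n y z → x = y := by
  induction n with
  | zero => intro x y z h1 h2; exact h1.trans h2.symm
  | succ n ih =>
    rintro x y z ⟨a, ha, h1⟩ ⟨b, hb, h2⟩
    have := edge_inj α h1 h2
    subst this
    exact ih ha hb

theorem nstep_add {α : X ≃. X} {m n : ℕ} {x z : X} :
    NStep α (m + n) x z ↔ ∃ y, NStep α m x y ∧ NStep α n y z := by
  induction n generalizing z with
  | zero =>
    constructor
    · intro h; exact ⟨z, h, rfl⟩
    · rintro ⟨y, h1, h2⟩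
      have : y = z := h2
      rw [← this]; exact h1
  | succ n ih =>
    constructor
    · rintro ⟨w, hw, h⟩
      obtain ⟨y, h1, h2⟩ := ih.mp hw
      exact ⟨y, h1, w, h2, h⟩
    · rintro ⟨y, h1, w, h2, h⟩
      exact ⟨w, ih.mpr ⟨y, h1, h2⟩, h⟩

/-- `y` is `n` steps after `x`, where `n` is an integer -/
def Step (α : X ≃. X) (n : ℤ) (x y : X) : Prop :=
  ∃ (p q : ℕ) (w : X), NStep α p x w ∧ NStep α q y w ∧ n = p - q

theorem step_zero (α : X ≃. X) (x : X) : Step α 0 x x :=
  ⟨0, 0, x, rfl, rfl, by simp⟩

theorem step_symm {α : X ≃. X} {n : ℤ} {x y : X} (h : Step α n x y) : Step α (-n) y x := by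
  obtain ⟨p, q, w, h1, h2, h3⟩ := h
  exact ⟨q, p, w, h2, h1, by omega⟩

theorem step_of_nstep {α : X ≃. X} {n : ℕ} {x y : X} (h : NStep α n x y) : Step α n x y :=
  ⟨n, 0, y, h, rfl, by simp⟩

theorem nstep_of_step {α : X ≃. X} {n : ℕ} {x y : X} (h : Step α n x y) : NStep α n x y := by
  obtain ⟨p, q, w, h1, h2, h3⟩ := h
  have hp : p = n + q := by omega
  subst hp
  obtain ⟨z, h4, h5⟩ := nstep_add.mp h1
  have := nstep_inj h5 h2
  rwa [← this]

theorem step_nat {α : X ≃. X} {n : ℕ} {x y : X} : Step α n x y ↔ NStep α n x y :=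
  ⟨nstep_of_step, step_of_nstep⟩

theorem step_neg {α : X ≃. X} {n : ℤ} {x y : X} : Step α (-n) x y ↔ Step α n y x :=
  ⟨fun h => by simpa using step_symm h, fun h => step_symm h⟩

theorem step_add {α : X ≃. X} {m n : ℤ} {x y z : X} (h1 : Step α m x y) (h2 : Step α n y z) :
    Step α (m + n) x z := by
  obtain ⟨p, q, w, a1, a2, a3⟩ := h1
  obtain ⟨p', q', w', b1, b2, b3⟩ := h2
  rcases le_total q p' with h | h
  · obtain ⟨k, rfl⟩ := Nat.exists_eq_add_of_le h
    obtain ⟨v, c1, c2⟩ := nstep_add.mp b1
    have := nstep_fun a2 c1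
    subst this
    exact ⟨p + k, q', w', nstep_add.mpr ⟨w, a1, c2⟩, b2, by push_cast; push_cast at b3; omega⟩
  · obtain ⟨k, rfl⟩ := Nat.exists_eq_add_of_le h
    obtain ⟨v, c1, c2⟩ := nstep_add.mp a2
    have := nstep_fun b1 c1
    subst this
    exact ⟨p, q' + k, w, a1, nstep_add.mpr ⟨w', b2, c2⟩, by push_cast; push_cast at a3; omega⟩

theorem step_zero_iff {α : X ≃. X} {x y : X} : Step α 0 x y ↔ x = y := by
  constructor
  · intro h
    have : NStep α 0 x y := nstep_of_step (by simpa using h)
    exact this
  · rintro rfl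
    exact step_zero α x

theorem step_fun {α : X ≃. X} {n : ℤ} {x y z : X} (h1 : Step α n x y) (h2 : Step α n x z) : y = z := by
  have := step_add (step_symm h1) h2
  rw [neg_add_cancel] at this
  exact step_zero_iff.mp this

theorem step_inj {α : X ≃. X} {n : ℤ} {x y z : X} (h1 : Step α n x z) (h2 : Step α n y z) : x = y := by
  have := step_add h1 (step_symm h2)
  rw [add_neg_cancel] at this
  exact step_zero_iff.mp this

theorem step_one {α : X ≃. X} {x y : X} : Step α 1 x y ↔ y ∈ α x := by
  rw [← nstep_one]
  exact step_nat (n := 1)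

theorem step_neg_one {α : X ≃. X} {x y : X} : Step α (-1) x y ↔ x ∈ α y := by
  rw [step_neg, step_one]

/-- a positive step starts in the domain -/
theorem dom_of_step_pos {α : X ≃. X} {n : ℤ} {x y : X} (hn : 0 < n) (h : Step α n x y) :
    x ∈ dom α := by
  obtain ⟨k, hk⟩ : ∃ k : ℕ, n = ((1 + k : ℕ) : ℤ) := ⟨(n - 1).toNat, by omega⟩
  rw [hk, step_nat] at h
  obtain ⟨z, h1, _⟩ := nstep_add.mp h
  exact ⟨z, nstep_one.mp h1⟩

/-- a positive step ends in the image -/
theorem im_of_step_pos {α : X ≃. X} {n : ℤ} {x y : X} (hn : 0 < n) (h : Step α n x y) :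
    y ∈ im α := by
  obtain ⟨k, hk⟩ : ∃ k : ℕ, n = ((k + 1 : ℕ) : ℤ) := ⟨(n - 1).toNat, by omega⟩
  rw [hk, step_nat] at h
  obtain ⟨z, _, h1⟩ := nstep_add.mp h
  exact ⟨z, nstep_one.mp h1⟩

theorem im_of_step_neg {α : X ≃. X} {n : ℤ} {x y : X} (hn : n < 0) (h : Step α n x y) :
    x ∈ im α := im_of_step_pos (n := -n) (by omega) (step_symm h)

theorem dom_of_step_neg {α : X ≃. X} {n : ℤ} {x y : X} (hn : n < 0) (h : Step α n x y) :
    y ∈ dom α := dom_of_step_pos (n := -n) (by omega) (step_symm h)

/-- intermediate steps -/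
theorem step_split_pos {α : X ≃. X} {m n : ℤ} {x y : X} (hm : 0 ≤ m) (hmn : m ≤ n)
    (h : Step α n x y) : ∃ z, Step α m x z := by
  obtain ⟨a, rfl⟩ := Int.eq_ofNat_of_zero_le hm
  obtain ⟨b, hb⟩ : ∃ b : ℕ, n = ((a + b : ℕ) : ℤ) := ⟨(n - a).toNat, by omega⟩
  rw [hb, step_nat] at h
  obtain ⟨z, h1, _⟩ := nstep_add.mp h
  exact ⟨z, step_of_nstep h1⟩

theorem step_split_neg {α : X ≃. X} {m n : ℤ} {x y : X} (hm : m ≤ 0) (hmn : n ≤ m)
    (h : Step α n x y) : ∃ z, Step α m x z := by
  -- go to `y` and come back
  have h1 := step_symm h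
  obtain ⟨z, hz⟩ := step_split_pos (m := m - n) (n := -n) (by omega) (by omega) h1
  refine ⟨z, ?_⟩
  have := step_add h hz
  simpa using this

theorem eqvGen_iff_step {α : X ≃. X} {x y : X} :
    Relation.EqvGen (fun a b => b ∈ α a) x y ↔ ∃ n : ℤ, Step α n x y := by
  constructor
  · intro h
    induction h with
    | rel a b h => exact ⟨1, step_one.mpr h⟩
    | refl a => exact ⟨0, step_zero α a⟩
    | symm a b _ ih =>
      obtain ⟨n, hn⟩ := ih
      exact ⟨-n, step_symm hn⟩
    | trans a b c _ _ ih1 ih2 =>
      obtain ⟨m, hm⟩ := ih1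
      obtain ⟨n, hn⟩ := ih2
      exact ⟨m + n, step_add hm hn⟩
  · have key : ∀ (n : ℕ) (a b : X), NStep α n a b → Relation.EqvGen (fun a b => b ∈ α a) a b := by
      intro n
      induction n with
      | zero => intro a b h; rw [show a = b from h]; exact Relation.EqvGen.refl _
      | succ n ih =>
        rintro a b ⟨z, h1, h2⟩
        exact Relation.EqvGen.trans _ _ _ (ih a z h1) (Relation.EqvGen.rel _ _ h2)
    rintro ⟨n, p, q, w, h1, h2, _⟩
    exact Relation.EqvGen.trans _ _ _ (key p x w h1) (Relation.EqvGen.symm _ _ (key q y w h2))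

theorem mem_component {α : X ≃. X} {x y : X} : y ∈ component α x ↔ ∃ n : ℤ, Step α n x y :=
  eqvGen_iff_step

theorem self_mem_component (α : X ≃. X) (x : X) : x ∈ component α x :=
  Relation.EqvGen.refl x

theorem component_eq {α : X ≃. X} {x y : X} (h : y ∈ component α x) :
    component α y = component α x := by
  ext z
  constructor
  · intro hz
    exact Relation.EqvGen.trans _ _ _ h hz
  · intro hz
    exact Relation.EqvGen.trans _ _ _ (Relation.EqvGen.symm _ _ h) hz

theorem component_eq_of_mem {α : X ≃. X} {C : Set X} (hC : C ∈ components α) {x : X} (hx : x ∈ C) :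
    component α x = C := by
  obtain ⟨z, rfl⟩ := hC
  exact component_eq hx

theorem component_mem (α : X ≃. X) (x : X) : component α x ∈ components α := ⟨x, rfl⟩

theorem nonempty_of_mem {α : X ≃. X} {C : Set X} (hC : C ∈ components α) : C.Nonempty := by
  obtain ⟨z, rfl⟩ := hC
  exact ⟨z, self_mem_component α z⟩

/-- if the component is inside the domain, all forward steps exist -/
theorem exists_step_of_subset_dom {α : X ≃. X} {b : X} (h : component α b ⊆ dom α) (n : ℕ) :
    ∃ x, Step α n b x := by
  induction n with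
  | zero => exact ⟨b, step_zero α b⟩
  | succ n ih =>
    obtain ⟨x, hx⟩ := ih
    obtain ⟨y, hy⟩ := h (mem_component.mpr ⟨_, hx⟩)
    refine ⟨y, ?_⟩
    push_cast
    exact step_add hx (step_one.mpr hy)

theorem exists_step_neg_of_subset_im {α : X ≃. X} {b : X} (h : component α b ⊆ im α) (n : ℕ) :
    ∃ x, Step α (-n) b x := by
  induction n with
  | zero => exact ⟨b, by simpa using step_zero α b⟩
  | succ n ih =>
    obtain ⟨x, hx⟩ := ih
    obtain ⟨y, hy⟩ := h (mem_component.mpr ⟨_, hx⟩)
    refine ⟨y, ?_⟩
    have := step_add hx (step_neg_one.mpr hy)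
    push_cast
    rw [neg_add]
    exact this

/-- a finite component inside the domain is inside the image -/
theorem subset_im_of_finite {α : X ≃. X} {C : Set X} (hC : C ∈ components α) (hfin : C.Finite)
    (h : C ⊆ dom α) : C ⊆ im α := by
  have : Finite C := hfin
  have hf : ∀ x : C, ∃ y : C, (y : X) ∈ α (x : X) := by
    intro x
    obtain ⟨y, hy⟩ := h x.2
    refine ⟨⟨y, ?_⟩, hy⟩
    rw [← component_eq_of_mem hC x.2]
    exact mem_component.mpr ⟨1, step_one.mpr hy⟩
  choose f hf using hf
  have hinj : Function.Injective f := by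
    intro a b hab
    have h1 := hf a
    have h2 := hf b
    rw [hab] at h1
    exact Subtype.ext (edge_inj α h1 h2)
  have hsurj := Finite.surjective_of_injective hinj
  intro y hy
  obtain ⟨x, hx⟩ := hsurj ⟨y, hy⟩
  refine ⟨x, ?_⟩
  have := hf x
  rw [hx] at this
  exact this

/-- a nonzero period forces the component to be finite -/
theorem finite_of_period {α : X ≃. X} {b : X} {n : ℤ} (hn : n ≠ 0) (h : Step α n b b) :
    (component α b).Finite := by
  -- positive period
  obtain ⟨p, hp, hpb⟩ : ∃ p : ℕ, 0 < p ∧ Step α p b b := by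
    rcases lt_or_gt_of_ne hn with h1 | h1
    · refine ⟨(-n).toNat, by omega, ?_⟩
      have : (((-n).toNat : ℕ) : ℤ) = -n := by omega
      rw [this]; exact step_symm h
    · refine ⟨n.toNat, by omega, ?_⟩
      have : ((n.toNat : ℕ) : ℤ) = n := by omega
      rw [this]; exact h
  have hmul : ∀ j : ℤ, Step α (j * p) b b := by
    intro j
    induction j using Int.induction_on with
    | zero => simpa using step_zero α b
    | succ i ih =>
      have := step_add ih hpb
      rw [add_mul, one_mul]; exact this
    | pred i ih =>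
      have := step_add ih (step_symm hpb)
      rw [sub_mul, one_mul, sub_eq_add_neg]; exact this
  have hall : ∀ i : ℕ, ∃ x, Step α i b x := by
    intro i
    have h1 : (0 : ℤ) ≤ i := by positivity
    have h2 : (i : ℤ) ≤ (i : ℤ) * p := by nlinarith
    exact step_split_pos h1 h2 (hmul i)
  choose f hf using hall
  apply (Set.finite_range (fun i : Fin p => f i)).subset
  intro x hx
  obtain ⟨m, hm⟩ := mem_component.mp hx
  have hp' : (0 : ℤ) < p := by exact_mod_cast hp
  have h1 : 0 ≤ m % p := Int.emod_nonneg _ hp'.ne'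
  have h2 : m % p < p := Int.emod_lt_of_pos _ hp'
  refine ⟨⟨(m % p).toNat, by omega⟩, ?_⟩
  have h3 : Step α (m % p) b (f (m % p).toNat) := by
    have := hf (m % p).toNat
    rwa [show (((m % p).toNat : ℕ) : ℤ) = m % p by omega] at this
  have h4 : Step α (m % p) b x := by
    have := step_add (hmul (-(m / p))) hm
    have e : -(m / p) * p + m = m % p := by
      have := Int.emod_add_mul_ediv m p
      linarith [mul_comm (p : ℤ) (m / p)]
    rwa [e] at this
  exact step_fun h3 h4

/-- in a component inside the domain with `k` points, the periods are the multiples of `k` -/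
theorem period_iff_dvd {α : X ≃. X} {b : X} {k : ℕ} (hd : component α b ⊆ dom α)
    (hk : (component α b).encard = k) (n : ℤ) : Step α n b b ↔ (k : ℤ) ∣ n := by
  have hfin : (component α b).Finite := Set.finite_of_encard_eq_coe hk
  -- there is a positive period
  have hall := exists_step_of_subset_dom hd
  choose f hf using hall
  have hex : ∃ p : ℕ, 0 < p ∧ Step α p b b := by
    have hmaps : ∀ i : ℕ, f i ∈ component α b := fun i => mem_component.mpr ⟨_, hf i⟩
    have hni : ¬ Function.Injective (fun i : ℕ => (⟨f i, hmaps i⟩ : component α b)) := by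
      intro hinj
      have : Finite (component α b) := hfin
      exact not_injective_infinite_finite _ hinj
    unfold Function.Injective at hni
    push Not at hni
    obtain ⟨i, j, hij, hne⟩ := hni
    have hfij : f i = f j := congrArg Subtype.val hij
    rcases lt_or_gt_of_ne hne with h | h
    · refine ⟨j - i, by omega, ?_⟩
      have h1 := hf j
      rw [← hfij] at h1
      have := step_add h1 (step_symm (hf i))
      rwa [show ((j : ℤ) + -(i : ℤ)) = ((j - i : ℕ) : ℤ) by omega] at this
    · refine ⟨i - j, by omega, ?_⟩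
      have h1 := hf i
      rw [hfij] at h1
      have := step_add h1 (step_symm (hf j))
      rwa [show ((i : ℤ) + -(j : ℤ)) = ((i - j : ℕ) : ℤ) by omega] at this
  classical
  set p := Nat.find hex with hpdef
  obtain ⟨hp, hpb⟩ := Nat.find_spec hex
  have hmin : ∀ m : ℕ, 0 < m → Step α m b b → p ≤ m := fun m h1 h2 => Nat.find_min' hex ⟨h1, h2⟩
  rw [← hpdef] at hp hpb
  have hmul : ∀ j : ℤ, Step α (j * p) b b := by
    intro j
    induction j using Int.induction_on with
    | zero => simpa using step_zero α b
    | succ i ih =>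
      have := step_add ih hpb
      rw [add_mul, one_mul]; exact this
    | pred i ih =>
      have := step_add ih (step_symm hpb)
      rw [sub_mul, one_mul, sub_eq_add_neg]; exact this
  have hp' : (0 : ℤ) < p := by exact_mod_cast hp
  have hiff : ∀ m : ℤ, Step α m b b ↔ (p : ℤ) ∣ m := by
    intro m
    constructor
    · intro h
      have h1 : 0 ≤ m % p := Int.emod_nonneg _ hp'.ne'
      have h2 : m % p < p := Int.emod_lt_of_pos _ hp'
      have h4 : Step α (m % p) b b := by
        have := step_add (hmul (-(m / p))) h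
        have e : -(m / p) * p + m = m % p := by
          have := Int.emod_add_mul_ediv m p
          linarith [mul_comm (p : ℤ) (m / p)]
        rwa [e] at this
      by_contra hnd
      have h5 : m % p ≠ 0 := fun h => hnd (Int.dvd_of_emod_eq_zero h)
      have h6 := hmin (m % p).toNat (by omega) (by
        rwa [show (((m % p).toNat : ℕ) : ℤ) = m % p by omega])
      omega
    · rintro ⟨c, rfl⟩
      rw [mul_comm]
      exact hmul c
  -- the component has `p` points
  have hcard : (component α b).encard = p := by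
    have hinj : Function.Injective (fun i : Fin p => f i) := by
      intro i j hij
      dsimp only at hij
      have h1 := hf j
      rw [← hij] at h1
      have h2 := step_add h1 (step_symm (hf i))
      rw [hiff] at h2
      have h3 := Int.eq_zero_of_abs_lt_dvd h2 (by
        have := i.2
        have := j.2
        rw [abs_lt]
        constructor <;> omega)
      apply Fin.ext
      omega
    have hrange : Set.range (fun i : Fin p => f i) = component α b := by
      apply Set.Subset.antisymm
      · rintro _ ⟨i, rfl⟩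
        exact mem_component.mpr ⟨_, hf i⟩
      · intro x hx
        obtain ⟨m, hm⟩ := mem_component.mp hx
        have h1 : 0 ≤ m % p := Int.emod_nonneg _ hp'.ne'
        have h2 : m % p < p := Int.emod_lt_of_pos _ hp'
        refine ⟨⟨(m % p).toNat, by omega⟩, ?_⟩
        have h3 : Step α (m % p) b (f (m % p).toNat) := by
          have := hf (m % p).toNat
          rwa [show (((m % p).toNat : ℕ) : ℤ) = m % p by omega] at this
        have h4 : Step α (m % p) b x := by
          have := step_add (hmul (-(m / p))) hm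
          have e : -(m / p) * p + m = m % p := by
            have := Int.emod_add_mul_ediv m p
            linarith [mul_comm (p : ℤ) (m / p)]
          rwa [e] at this
        exact step_fun h3 h4
    rw [← hrange, ← Set.image_univ, hinj.encard_image, Set.encard_univ]
    simp
  have : p = k := by
    rw [hk] at hcard
    exact_mod_cast hcard.symm
  rw [hiff n, this]

end Pool.Agent.ISym
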