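import Mathlib
import Pool.Agent.ISym.Defs

/-!
Further invariants of partial injective maps, used for the description of p-conjugacy.
-/

universe u

open Cardinal

namespace Pool.Agent.ISym

variable {X : Type u}

/-- The number of right rays: infinite components without a terminal point (a point outside the
domain) and with an initial point (a point outside the image). -/
noncomputable def numRightRays (α : X ≃. X) : Cardinal.{u} :=
  #{C : Set X // C ∈ components α ∧ C.Infinite ∧ C ⊆ dom α ∧ ¬ C ⊆ im α}

/-- The number of finite chains with at least `i` and at most `j` points: components with a
terminal point, at least `i` points and at most `j` points. -/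
noncomputable def numChains (α : X ≃. X) (i j : ℕ) : Cardinal.{u} :=
  #{C : Set X // C ∈ components α ∧ ¬ C ⊆ dom α ∧ (i : ℕ∞) ≤ C.encard ∧ C.encard ≤ (j : ℕ∞)}

end Pool.Agent.ISym
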