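import Mathlib

/-!
Transfinite greedy choice of injections.
-/

universe u

open Cardinal Ordinal

namespace Pool.Agent.ISym

/-- greedy injection along a well-order -/
theorem greedy {A B : Type u} (r : A → A → Prop) [IsWellOrder A r] (S : A → Set B)
    (h : ∀ a, #{a' // r a' a} < #(S a)) :
    ∃ f : A → B, Function.Injective f ∧ ∀ a, f a ∈ S a := by
  classical
  have hwf : WellFounded r := IsWellFounded.wf
  have key : ∀ (a : A) (g : {a' // r a' a} → B), ∃ b, b ∈ S a ∧ b ∉ Set.range g := by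
    intro a g
    by_contra hcon
    push Not at hcon
    have h1 : #(S a) ≤ #(Set.range g) := Cardinal.mk_le_mk_of_subset hcon
    exact absurd (h a) (not_lt.mpr (h1.trans Cardinal.mk_range_le))
  let f : A → B := hwf.fix (fun a ih => Classical.choose (key a (fun x => ih x.1 x.2)))
  have hf : ∀ a, f a = Classical.choose (key a (fun x => f x.1)) := by
    intro a
    show hwf.fix _ a = _
    rw [WellFounded.fix_eq]
  have hf1 : ∀ a, f a ∈ S a := by
    intro a
    rw [hf a]
    exact (Classical.choose_spec (key a (fun x => f x.1))).1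
  have hf2 : ∀ a b, r a b → f a ≠ f b := by
    intro a b hab heq
    have h1 := (Classical.choose_spec (key b (fun x => f x.1))).2
    rw [← hf b] at h1
    exact h1 ⟨⟨a, hab⟩, heq⟩
  refine ⟨f, ?_, hf1⟩
  intro a b hab
  by_contra hne
  rcases trichotomous_of r a b with h1 | h1 | h1
  · exact hf2 a b h1 hab
  · exact hne h1
  · exact hf2 b a h1 hab.symm

/-- length-increasing injections -/
theorem exists_len_injection {A B : Type u} (a : A → ℕ∞) (b : B → ℕ∞)
    (h : ∀ x : A, #{x' // a x ≤ a x'} ≤ #{y // a x ≤ b y}) :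
    ∃ f : A → B, Function.Injective f ∧ ∀ x, a x ≤ b (f x) := by
  classical
  let μ : A → Cardinal.{u} := fun x => #{y // a x ≤ b y}
  have hμ : ∀ x, μ x = #{y // a x ≤ b y} := fun x => rfl
  -- blocks
  let Blk : Cardinal.{u} → Type u := fun v => {x : A // μ x = v}
  have hord : ∀ v : Cardinal.{u}, ∃ (s : Blk v → Blk v → Prop) (_ : IsWellOrder (Blk v) s),
      Cardinal.ord #(Blk v) = Ordinal.type s := fun v => Cardinal.exists_ord_eq (Blk v)
  choose s hs hs2 using hord
  let τ : A → Ordinal.{u} := fun x => Ordinal.typein (s (μ x)) ⟨x, rfl⟩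
  let key : A → Cardinal.{u} ×ₗ Ordinal.{u} := fun x => toLex (μ x, τ x)
  have htau : ∀ (x y : A) (h : μ x = μ y), τ x = τ y → x = y := by
    intro x y hxy h1
    have h2 : ∀ (v : Cardinal.{u}) (hx : μ x = v), Ordinal.typein (s v) ⟨x, hx⟩ = τ x := by
      intro v hx; subst hx; rfl
    have h3 : Ordinal.typein (s (μ y)) ⟨x, hxy⟩ = Ordinal.typein (s (μ y)) ⟨y, rfl⟩ := by
      rw [h2 (μ y) hxy]; exact h1
    have h4 := (Ordinal.typein_inj (s (μ y))).mp h3
    exact congrArg Subtype.val h4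
  have hkey : Function.Injective key := by
    intro x y hxy
    have h1 : (μ x, τ x) = (μ y, τ y) := toLex.injective hxy
    have h2 : μ x = μ y := congrArg Prod.fst h1
    exact htau x y h2 (congrArg Prod.snd h1)
  let r : A → A → Prop := fun x y => key x < key y
  have hr : IsWellOrder A r := by
    have hwf : IsWellFounded A r := ⟨InvImage.wf key (IsWellFounded.wf (r := (· < ·)))⟩
    have htri : Std.Trichotomous r := by
      constructor
      intro x y h1 h2
      have h3 : ¬ key x < key y := h1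
      have h4 : ¬ key y < key x := h2
      exact hkey (le_antisymm (not_lt.mp h4) (not_lt.mp h3))
    exact { toIsWellFounded := hwf, toTrichotomous := htri }
  -- counting
  have hcount : ∀ v : Cardinal.{u}, (∃ x, μ x ≤ v) → #{x // μ x ≤ v} ≤ v := by
    intro v ⟨x, hx⟩
    obtain ⟨x0, hx0, hmin⟩ : ∃ x0, μ x0 ≤ v ∧ ∀ x', μ x' ≤ v → a x0 ≤ a x' := by
      have hne : (a '' {x | μ x ≤ v}).Nonempty := ⟨a x, x, hx, rfl⟩
      obtain ⟨x0, hx0, h0⟩ := WellFounded.min_mem (wellFounded_lt) (a '' {x | μ x ≤ v}) hne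
      refine ⟨x0, hx0, fun x' hx' => ?_⟩
      rw [h0]
      exact not_lt.mp (WellFounded.not_lt_min (wellFounded_lt) (a '' {x | μ x ≤ v}) ⟨x', hx', rfl⟩)
    calc #{x // μ x ≤ v} ≤ #{x' // a x0 ≤ a x'} := by
          apply Cardinal.mk_le_of_injective (f := fun x : {x // μ x ≤ v} =>
            (⟨x.1, hmin x.1 x.2⟩ : {x' // a x0 ≤ a x'}))
          intro x y hxy
          have h1 := congrArg Subtype.val hxy
          exact Subtype.ext h1
      _ ≤ μ x0 := h x0
      _ ≤ v := hx0
  have hcount' : ∀ v : Cardinal.{u}, 0 < v → #{x // μ x < v} < v := by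
    intro v hv
    by_cases hex : ∃ x, μ x < v
    · obtain ⟨x, hx⟩ := hex
      obtain ⟨x0, hx0, hmin⟩ : ∃ x0, μ x0 < v ∧ ∀ x', μ x' < v → a x0 ≤ a x' := by
        have hne : (a '' {x | μ x < v}).Nonempty := ⟨a x, x, hx, rfl⟩
        obtain ⟨x0, hx0, h0⟩ := WellFounded.min_mem (wellFounded_lt) (a '' {x | μ x < v}) hne
        refine ⟨x0, hx0, fun x' hx' => ?_⟩
        rw [h0]
        exact not_lt.mp (WellFounded.not_lt_min (wellFounded_lt) (a '' {x | μ x < v}) ⟨x', hx', rfl⟩)
      calc #{x // μ x < v} ≤ #{x' // a x0 ≤ a x'} := by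
            apply Cardinal.mk_le_of_injective (f := fun x : {x // μ x < v} =>
              (⟨x.1, hmin x.1 x.2⟩ : {x' // a x0 ≤ a x'}))
            intro x y hxy
            have h1 := congrArg Subtype.val hxy
            exact Subtype.ext h1
        _ ≤ μ x0 := h x0
        _ < v := hx0
    · push Not at hex
      have : IsEmpty {x // μ x < v} := ⟨fun x => absurd x.2 (not_lt.mpr (hex x.1))⟩
      rw [Cardinal.mk_eq_zero]
      exact hv
  -- apply greedy
  obtain ⟨f, hf1, hf2⟩ := greedy r (fun x => {y | a x ≤ b y}) (by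
    intro x
    show #{x' // r x' x} < μ x
    have hpos : 0 < μ x := by
      have h1 : 1 ≤ #{x' // a x ≤ a x'} := by
        rw [Cardinal.one_le_iff_ne_zero, Cardinal.mk_ne_zero_iff]
        exact ⟨⟨x, le_rfl⟩⟩
      exact lt_of_lt_of_le zero_lt_one (h1.trans (h x))
    by_cases hinf : ℵ₀ ≤ μ x
    · -- infinite case
      have h1 : #{x' // r x' x} ≤ #{x' // μ x' < μ x} + #{y : Blk (μ x) // s (μ x) y ⟨x, rfl⟩} := by
        rw [Cardinal.add_def]
        have hsplit : ∀ x' : {x' // r x' x}, ¬ μ x'.1 < μ x →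
            ∃ e : μ x'.1 = μ x, s (μ x) ⟨x'.1, e⟩ ⟨x, rfl⟩ := by
          rintro ⟨x', hx'⟩ hn
          have h2 : μ x' < μ x ∨ μ x' = μ x ∧ τ x' < τ x := Prod.Lex.toLex_lt_toLex.mp hx'
          rcases h2 with h2 | ⟨h2, h3⟩
          · exact absurd h2 hn
          · refine ⟨h2, ?_⟩
            have h4 : ∀ (v : Cardinal.{u}) (hx : μ x' = v), Ordinal.typein (s v) ⟨x', hx⟩ = τ x' := by
              intro v hx; subst hx; rfl
            rw [← h4 (μ x) h2] at h3
            exact (Ordinal.typein_lt_typein (s (μ x))).mp h3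
        apply Cardinal.mk_le_of_injective (f := fun x' : {x' // r x' x} =>
          if hlt : μ x'.1 < μ x then Sum.inl (⟨x'.1, hlt⟩ : {x' // μ x' < μ x})
          else Sum.inr (⟨⟨x'.1, (hsplit x' hlt).1⟩, (hsplit x' hlt).2⟩ :
            {y : Blk (μ x) // s (μ x) y ⟨x, rfl⟩}))
        intro y z hyz
        dsimp only at hyz
        split_ifs at hyz with c1 c2 c2
        · have := congrArg Subtype.val (Sum.inl.inj hyz)
          exact Subtype.ext this
        · have := congrArg (fun t => t.1.1) (Sum.inr.inj hyz)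
          exact Subtype.ext this
      refine lt_of_le_of_lt h1 (Cardinal.add_lt_of_lt hinf (hcount' _ hpos) ?_)
      have h2 : #{y : Blk (μ x) // s (μ x) y ⟨x, rfl⟩} = (Ordinal.typein (s (μ x)) ⟨x, rfl⟩).card := by
        rfl
      rw [h2]
      refine lt_of_lt_of_le (Cardinal.card_typein_lt _ (hs2 (μ x))) ?_
      refine le_trans ?_ (hcount (μ x) ⟨x, le_rfl⟩)
      apply Cardinal.mk_le_of_injective (f := fun y : Blk (μ x) => (⟨y.1, y.2.le⟩ : {x' // μ x' ≤ μ x}))
      intro y z hyz
      have h3 := congrArg Subtype.val hyz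
      exact Subtype.ext h3
    · -- finite case
      push Not at hinf
      have h1 := hcount (μ x) ⟨x, le_rfl⟩
      have hfin : Finite {x' // μ x' ≤ μ x} := by
        rw [← Cardinal.lt_aleph0_iff_finite]
        exact lt_of_le_of_lt h1 hinf
      refine lt_of_lt_of_le ?_ h1
      have hfin2 : Finite {x' // r x' x} := by
        apply Finite.of_injective (fun x' : {x' // r x' x} => (⟨x'.1, by
          have h2 : μ x'.1 < μ x ∨ μ x'.1 = μ x ∧ τ x'.1 < τ x := Prod.Lex.toLex_lt_toLex.mp x'.2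
          rcases h2 with h2 | ⟨h2, _⟩
          · exact h2.le
          · exact h2.le⟩ : {x' // μ x' ≤ μ x}))
        intro y z hyz
        have h3 := congrArg Subtype.val hyz
        exact Subtype.ext h3
      let A1 : Set A := {x' | r x' x}
      let A2 : Set A := {x' | μ x' ≤ μ x}
      have hA : A1 ⊂ A2 := by
        rw [Set.ssubset_iff_of_subset]
        · exact ⟨x, le_refl (μ x), fun h => lt_irrefl (key x) h⟩
        · intro x' hx'
          have h2 : μ x' < μ x ∨ μ x' = μ x ∧ τ x' < τ x := Prod.Lex.toLex_lt_toLex.mp hx'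
          rcases h2 with h2 | ⟨h2, _⟩
          · exact h2.le
          · exact h2.le
      have hA2fin : A2.Finite := hfin
      have h5 : A1.ncard < A2.ncard := Set.ncard_lt_ncard hA hA2fin
      have hA1fin : A1.Finite := hfin2
      show #A1 < #A2
      rw [← Set.cast_ncard hA1fin, ← Set.cast_ncard hA2fin]
      exact_mod_cast h5)
  exact ⟨f, hf1, hf2⟩

/-- length-increasing injections preserving the kind -/
theorem exists_kind_len_injection {A B : Type u} {K : Type*} (kA : A → K) (kB : B → K) (a : A → ℕ∞)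
    (b : B → ℕ∞)
    (h : ∀ x : A, #{x' // kA x' = kA x ∧ a x ≤ a x'} ≤ #{y // kB y = kA x ∧ a x ≤ b y}) :
    ∃ f : A → B, Function.Injective f ∧ ∀ x, kB (f x) = kA x ∧ a x ≤ b (f x) := by
  classical
  have hk : ∀ k : K, ∃ f : {x // kA x = k} → {y // kB y = k}, Function.Injective f ∧
      ∀ x, a x.1 ≤ b (f x).1 := by
    intro k
    apply exists_len_injection (fun x : {x // kA x = k} => a x.1) (fun y : {y // kB y = k} => b y.1)
    rintro ⟨x, rfl⟩
    refine le_trans ?_ (le_trans (h x) ?_)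
    · apply Cardinal.mk_le_of_injective (f := fun x' : {x' : {z // kA z = kA x} // a x ≤ a x'.1} =>
        (⟨x'.1.1, x'.1.2, x'.2⟩ : {x' // kA x' = kA x ∧ a x ≤ a x'}))
      intro y z hyz
      have h1 := congrArg Subtype.val hyz
      exact Subtype.ext (Subtype.ext h1)
    · apply Cardinal.mk_le_of_injective (f := fun y : {y // kB y = kA x ∧ a x ≤ b y} =>
        (⟨⟨y.1, y.2.1⟩, y.2.2⟩ : {y' : {z // kB z = kA x} // a x ≤ b y'.1}))
      intro y z hyz
      have h1 := congrArg (fun t => t.1.1) hyz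
      exact Subtype.ext h1
  choose f hf1 hf2 using hk
  refine ⟨fun x => (f (kA x) ⟨x, rfl⟩).1, ?_, fun x => ⟨(f (kA x) ⟨x, rfl⟩).2, hf2 _ _⟩⟩
  intro x y hxy
  dsimp only at hxy
  have h1 : kA x = kA y := by
    rw [← (f (kA x) ⟨x, rfl⟩).2, ← (f (kA y) ⟨y, rfl⟩).2, hxy]
  have h2 : ∀ (k : K) (hx : kA x = k), (f k ⟨x, hx⟩).1 = (f (kA x) ⟨x, rfl⟩).1 := by
    intro k hx; subst hx; rfl
  have h3 : f (kA y) ⟨x, h1⟩ = f (kA y) ⟨y, rfl⟩ := by
    apply Subtype.ext
    rw [h2 (kA y) h1, hxy]
  exact congrArg Subtype.val (hf1 _ h3)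

end Pool.Agent.ISym
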