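import Mathlib

/-!
Matchings between two families of sizes, up to a difference of one.
-/

universe u

open Cardinal

namespace Pool.Agent.ISym

/-- Hall type theorem for finite neighbourhoods -/
theorem hall_near {A B : Type u} (a : A → ℕ) (b : B → ℕ)
    (h : ∀ i j : ℕ, i ≤ j → (∃ x, a x = i) → (∃ x, a x = j) → {y | i ≤ b y + 1 ∧ b y ≤ j + 1}.Finite →
      #{x // i ≤ a x ∧ a x ≤ j} ≤ #{y // i ≤ b y + 1 ∧ b y ≤ j + 1})
    (hfin : ∀ x : A, {y | a x ≤ b y + 1 ∧ b y ≤ a x + 1}.Finite) :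
    ∃ f : A → B, Function.Injective f ∧ ∀ x, a x ≤ b (f x) + 1 ∧ b (f x) ≤ a x + 1 := by
  classical
  let N : A → Finset B := fun x => (hfin x).toFinset
  have hN : ∀ x y, y ∈ N x ↔ a x ≤ b y + 1 ∧ b y ≤ a x + 1 := by
    intro x y
    simp [N]
  have key : ∀ (n : ℕ) (F : Finset A), F.card = n → F.card ≤ (F.biUnion N).card := by
    intro n
    induction n using Nat.strong_induction_on with
    | _ n ih =>
      intro F hF
      by_cases hne : F.Nonempty
      · obtain ⟨x0, hx0, hmin⟩ := Finset.exists_min_image F a hne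
        obtain ⟨x1, hx1, hmax⟩ := Finset.exists_max_image F a hne
        by_cases hgap : ∃ t : ℕ, a x0 ≤ t + 1 ∧ t ≤ a x1 + 1 ∧ ∀ x ∈ F, ¬ (a x ≤ t + 1 ∧ t ≤ a x + 1)
        · obtain ⟨t, ht0, ht1, ht⟩ := hgap
          have hlt0 : a x0 < t := by
            have := ht x0 hx0
            by_contra hcon
            push Not at hcon
            exact this ⟨ht0, by omega⟩
          have hlt1 : t < a x1 := by
            have := ht x1 hx1
            by_contra hcon
            push Not at hcon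
            exact this ⟨by omega, ht1⟩
          let F1 := F.filter (fun x => a x < t)
          let F2 := F.filter (fun x => ¬ a x < t)
          have hcard : F1.card + F2.card = F.card := Finset.card_filter_add_card_filter_not _
          have h1 : 0 < F1.card := Finset.card_pos.mpr ⟨x0, Finset.mem_filter.mpr ⟨hx0, hlt0⟩⟩
          have h2 : 0 < F2.card := Finset.card_pos.mpr ⟨x1, Finset.mem_filter.mpr ⟨hx1, by omega⟩⟩
          have i1 := ih F1.card (by omega) F1 rfl
          have i2 := ih F2.card (by omega) F2 rfl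
          have hdisj : Disjoint (F1.biUnion N) (F2.biUnion N) := by
            rw [Finset.disjoint_left]
            intro y hy1 hy2
            obtain ⟨x, hx, hxy⟩ := Finset.mem_biUnion.mp hy1
            obtain ⟨x', hx', hxy'⟩ := Finset.mem_biUnion.mp hy2
            rw [hN] at hxy hxy'
            obtain ⟨hxF, hxt⟩ := Finset.mem_filter.mp hx
            obtain ⟨hxF', hxt'⟩ := Finset.mem_filter.mp hx'
            have e1 := ht x hxF
            have e2 := ht x' hxF'
            rw [not_and_or] at e1 e2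
            omega
          have hsub : F1.biUnion N ∪ F2.biUnion N ⊆ F.biUnion N := by
            apply Finset.union_subset
            · exact Finset.biUnion_subset_biUnion_of_subset_left _ (Finset.filter_subset _ _)
            · exact Finset.biUnion_subset_biUnion_of_subset_left _ (Finset.filter_subset _ _)
          have h3 := Finset.card_le_card hsub
          rw [Finset.card_union_of_disjoint hdisj] at h3
          omega
        · push Not at hgap
          have hsub : {y | a x0 ≤ b y + 1 ∧ b y ≤ a x1 + 1} ⊆ ((F.biUnion N : Finset B) : Set B) := by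
            rintro y ⟨hy1, hy2⟩
            obtain ⟨x, hx, h1, h2⟩ := hgap (b y) hy1 hy2
            exact Finset.mem_coe.mpr (Finset.mem_biUnion.mpr ⟨x, hx, (hN x y).mpr ⟨h1, h2⟩⟩)
          have hfin' : {y | a x0 ≤ b y + 1 ∧ b y ≤ a x1 + 1}.Finite :=
            (Finset.finite_toSet _).subset hsub
          have h1 := h (a x0) (a x1) (hmin x1 hx1) ⟨x0, rfl⟩ ⟨x1, rfl⟩ hfin'
          have h2 : #{y // a x0 ≤ b y + 1 ∧ b y ≤ a x1 + 1} ≤ #((F.biUnion N : Finset B) : Set B) :=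
            Cardinal.mk_le_mk_of_subset hsub
          have h3 : #(F : Set A) ≤ #{x // a x0 ≤ a x ∧ a x ≤ a x1} :=
            Cardinal.mk_le_mk_of_subset (fun x hx => ⟨hmin x hx, hmax x hx⟩)
          have h4 := h3.trans (h1.trans h2)
          have h5 : #(F : Set A) = F.card := Cardinal.mk_coe_finset
          have h6 : #((F.biUnion N : Finset B) : Set B) = (F.biUnion N).card := Cardinal.mk_coe_finset
          rw [h5, h6] at h4
          exact_mod_cast h4
      · rw [Finset.not_nonempty_iff_eq_empty] at hne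
        subst hne
        simp
  obtain ⟨f, hf1, hf2⟩ := (Finset.all_card_le_biUnion_card_iff_exists_injective N).mp
    (fun F => key F.card F rfl)
  exact ⟨f, hf1, fun x => (hN x (f x)).mp (hf2 x)⟩

/-- the general case -/
theorem exists_near_injection {A B : Type u} (a : A → ℕ) (b : B → ℕ)
    (h : ∀ i j : ℕ, i ≤ j → (∃ x, a x = i) → (∃ x, a x = j) →
      #{x // i ≤ a x ∧ a x ≤ j} ≤ #{y // i ≤ b y + 1 ∧ b y ≤ j + 1}) :
    ∃ f : A → B, Function.Injective f ∧ ∀ x, a x ≤ b (f x) + 1 ∧ b (f x) ≤ a x + 1 := by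
  classical
  -- sizes with a finite neighbourhood
  let Fin1 : ℕ → Prop := fun s => {y | s ≤ b y + 1 ∧ b y ≤ s + 1}.Finite
  -- the Hall part
  obtain ⟨f1, hf1, hf1'⟩ := hall_near (A := {x : A // Fin1 (a x)}) (B := B) (fun x => a x.1) b
    (by
      intro i j hij hi hj _
      obtain ⟨x, hx⟩ := hi
      obtain ⟨x', hx'⟩ := hj
      refine le_trans ?_ (h i j hij ⟨x.1, hx⟩ ⟨x'.1, hx'⟩)
      apply Cardinal.mk_le_of_injective (f := fun z : {x : {x : A // Fin1 (a x)} // i ≤ a x.1 ∧ a x.1 ≤ j} =>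
        (⟨z.1.1, z.2⟩ : {x // i ≤ a x ∧ a x ≤ j}))
      intro z w hzw
      have h1 := congrArg Subtype.val hzw
      exact Subtype.ext (Subtype.ext h1))
    (fun x => x.2)
  -- infinite sizes
  have hT : ∀ s : ℕ, ¬ Fin1 s → (∃ x, a x = s) → ∃ t : ℕ, (s ≤ t + 1 ∧ t ≤ s + 1) ∧
      {y | b y = t}.Infinite ∧ #{x // a x = s} ≤ #{y // b y = t} := by
    intro s hs hex
    have hle : #{x // a x = s} ≤ #{y // s ≤ b y + 1 ∧ b y ≤ s + 1} := by
      refine le_trans ?_ (h s s le_rfl hex hex)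
      apply Cardinal.mk_le_mk_of_subset (s := {x | a x = s}) (t := {x | s ≤ a x ∧ a x ≤ s})
      intro x hx
      have : a x = s := hx
      exact ⟨this.ge, this.le⟩
    have hinf : ℵ₀ ≤ #{y // s ≤ b y + 1 ∧ b y ≤ s + 1} := by
      exact not_lt.mp (fun hlt => hs (Cardinal.lt_aleph0_iff_set_finite.mp hlt))
    by_contra hcon
    push Not at hcon
    apply lt_irrefl (#{y // s ≤ b y + 1 ∧ b y ≤ s + 1})
    -- every neighbouring class is small
    have hsmall : ∀ t : ℕ, (s ≤ t + 1 ∧ t ≤ s + 1) → #{y // b y = t} < #{y // s ≤ b y + 1 ∧ b y ≤ s + 1} := by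
      intro t ht
      by_cases h2 : {y | b y = t}.Infinite
      · rcases lt_or_ge (#{y // b y = t}) (#{y // s ≤ b y + 1 ∧ b y ≤ s + 1}) with h3 | h3
        · exact h3
        · exact absurd (hcon t ht h2) (not_lt.mpr (hle.trans h3))
      · rw [Set.not_infinite] at h2
        exact lt_of_lt_of_le ((Cardinal.lt_aleph0_iff_set_finite).mpr h2) hinf
    calc #{y // s ≤ b y + 1 ∧ b y ≤ s + 1}
        ≤ #{y // b y = s - 1} + #{y // b y = s} + #{y // b y = s + 1} := by
          have hsub : {y | s ≤ b y + 1 ∧ b y ≤ s + 1} ⊆ ({y | b y = s - 1} ∪ {y | b y = s}) ∪ {y | b y = s + 1} := by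
            rintro y ⟨h1, h2⟩
            simp only [Set.mem_union, Set.mem_ofPred_eq]
            omega
          exact (Cardinal.mk_le_mk_of_subset hsub).trans ((Cardinal.mk_union_le _ _).trans
            (add_le_add (Cardinal.mk_union_le _ _) le_rfl))
      _ < #{y // s ≤ b y + 1 ∧ b y ≤ s + 1} := by
          apply Cardinal.add_lt_of_lt hinf
          · apply Cardinal.add_lt_of_lt hinf
            · exact hsmall _ (by omega)
            · exact hsmall _ (by omega)
          · exact hsmall _ (by omega)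
  have hT' : ∀ s : {s : ℕ // ¬ Fin1 s ∧ ∃ x, a x = s}, ∃ t : ℕ, (s.1 ≤ t + 1 ∧ t ≤ s.1 + 1) ∧
      {y | b y = t}.Infinite ∧ #{x // a x = s.1} ≤ #{y // b y = t} := fun s => hT s.1 s.2.1 s.2.2
  choose t ht1 ht2 ht3 using hT'
  have he : ∀ s : {s : ℕ // ¬ Fin1 s ∧ ∃ x, a x = s}, Nonempty ({x // a x = s.1} ↪ {y // b y = t s}) := by
    intro s
    exact ht3 s
  have hp : ∀ m : ℕ, {y | b y = m}.Infinite → Nonempty (ℕ × {y // b y = m} ↪ {y // b y = m}) := by
    intro m hm
    have : Infinite {y // b y = m} := hm.to_subtype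
    have hle : #(ULift.{u} ℕ × {y // b y = m}) ≤ #{y // b y = m} := by
      rw [Cardinal.mk_prod, Cardinal.lift_id, Cardinal.lift_id]
      apply Cardinal.mul_le_of_le (Cardinal.infinite_iff.mp this) _ le_rfl
      rw [Cardinal.mk_uLift, Cardinal.mk_nat, Cardinal.lift_aleph0]
      exact Cardinal.infinite_iff.mp this
    obtain ⟨e⟩ := hle
    exact ⟨⟨fun z => e (⟨z.1⟩, z.2), by
      intro z w hzw
      have h1 := e.injective hzw
      have h2 : (⟨z.1⟩ : ULift.{u} ℕ) = ⟨w.1⟩ := (Prod.mk.inj h1).1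
      have h3 : z.2 = w.2 := (Prod.mk.inj h1).2
      exact Prod.ext (congrArg ULift.down h2) h3⟩⟩
  have e := fun s => Classical.choice (he s)
  have p := fun (m : {m : ℕ // {y | b y = m}.Infinite}) => Classical.choice (hp m.1 m.2)
  let sz : ∀ x : A, ¬ Fin1 (a x) → {s : ℕ // ¬ Fin1 s ∧ ∃ x, a x = s} := fun x hx => ⟨a x, hx, x, rfl⟩
  let f2 : ∀ x : A, ¬ Fin1 (a x) → B := fun x hx =>
    (p ⟨t (sz x hx), ht2 _⟩ (a x, e (sz x hx) ⟨x, rfl⟩)).1
  have hf2b : ∀ x hx, b (f2 x hx) = t (sz x hx) := fun x hx => (p ⟨t (sz x hx), ht2 _⟩ (a x, e (sz x hx) ⟨x, rfl⟩)).2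
  have hf2inj : ∀ x hx x' hx', f2 x hx = f2 x' hx' → x = x' := by
    intro x hx x' hx' heq
    have h1 : t (sz x hx) = t (sz x' hx') := by
      rw [← hf2b x hx, ← hf2b x' hx', heq]
    -- generalise
    have h2 : ∀ (m m' : {m : ℕ // {y | b y = m}.Infinite}) (z : ℕ × {y // b y = m.1})
        (z' : ℕ × {y // b y = m'.1}), m = m' → (p m z).1 = (p m' z').1 → z.1 = z'.1 ∧ z.2.1 = z'.2.1 := by
      intro m m' z z' hm hz
      subst hm
      have := (p m).injective (Subtype.ext hz)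
      rw [this]
      exact ⟨rfl, rfl⟩
    obtain ⟨h3, h4⟩ := h2 ⟨t (sz x hx), ht2 _⟩ ⟨t (sz x' hx'), ht2 _⟩ (a x, e (sz x hx) ⟨x, rfl⟩)
      (a x', e (sz x' hx') ⟨x', rfl⟩) (Subtype.ext h1) heq
    dsimp only at h3 h4
    have h5 : ∀ (s s' : {s : ℕ // ¬ Fin1 s ∧ ∃ x, a x = s}) (z : {x // a x = s.1}) (z' : {x // a x = s'.1}),
        s = s' → (e s z).1 = (e s' z').1 → z.1 = z'.1 := by
      intro s s' z z' hs hz
      subst hs
      have := (e s).injective (Subtype.ext hz)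
      rw [this]
    exact h5 (sz x hx) (sz x' hx') ⟨x, rfl⟩ ⟨x', rfl⟩ (Subtype.ext h3) h4
  refine ⟨fun x => if hx : Fin1 (a x) then f1 ⟨x, hx⟩ else f2 x hx, ?_, ?_⟩
  · -- injectivity
    have hmix : ∀ x (hx : Fin1 (a x)) x' (hx' : ¬ Fin1 (a x')), f1 ⟨x, hx⟩ ≠ f2 x' hx' := by
      intro x hx x' hx' heq
      have h1 := hf1' ⟨x, hx⟩
      dsimp only at h1
      have h2 : {y | b y = b (f2 x' hx')}.Infinite := by
        rw [hf2b x' hx']; exact ht2 _
      apply h2
      refine Set.Finite.subset hx ?_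
      intro y hy
      have hy' : b y = b (f2 x' hx') := hy
      rw [← heq] at hy'
      show a x ≤ b y + 1 ∧ b y ≤ a x + 1
      rw [hy']; exact h1
    intro x x' hxx
    dsimp only at hxx
    by_cases hx : Fin1 (a x) <;> by_cases hx' : Fin1 (a x')
    · rw [dif_pos hx, dif_pos hx'] at hxx
      exact congrArg Subtype.val (hf1 hxx)
    · rw [dif_pos hx, dif_neg hx'] at hxx
      exact absurd hxx (hmix x hx x' hx')
    · rw [dif_neg hx, dif_pos hx'] at hxx
      exact absurd hxx.symm (hmix x' hx' x hx)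
    · rw [dif_neg hx, dif_neg hx'] at hxx
      exact hf2inj x hx x' hx' hxx
  · intro x
    dsimp only
    by_cases hx : Fin1 (a x)
    · rw [dif_pos hx]
      exact hf1' ⟨x, hx⟩
    · rw [dif_neg hx, hf2b x hx]
      exact ht1 (sz x hx)

/-- Mendelsohn-Dulmage: two one-sided matchings give a two-sided one -/
theorem mendelsohn_dulmage {A B : Type u} (R : A → B → Prop) (PA : A → Prop) (PB : B → Prop)
    (f : {a // PA a} → B) (hf : Function.Injective f) (hfR : ∀ a, R a.1 (f a))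
    (g : {b // PB b} → A) (hg : Function.Injective g) (hgR : ∀ b, R (g b) b.1) :
    ∃ M : A → B → Prop, (∀ a b, M a b → R a b) ∧ (∀ a b b', M a b → M a b' → b = b') ∧
      (∀ a a' b, M a b → M a' b → a = a') ∧ (∀ a, PA a → ∃ b, M a b) ∧ (∀ b, PB b → ∃ a, M a b) := by
  classical
  -- the closure
  let Cl : Set A → Prop := fun U => (∀ a, PA a → a ∉ Set.range g → a ∈ U) ∧
    ∀ a (ha : PA a), a ∈ U → ∀ hb : PB (f ⟨a, ha⟩), g ⟨f ⟨a, ha⟩, hb⟩ ∈ U
  let U : Set A := {a | ∀ V : Set A, Cl V → a ∈ V}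
  have hU1 : ∀ a, PA a → a ∉ Set.range g → a ∈ U := fun a ha hr V hV => hV.1 a ha hr
  have hU2 : ∀ a (ha : PA a), a ∈ U → ∀ hb : PB (f ⟨a, ha⟩), g ⟨f ⟨a, ha⟩, hb⟩ ∈ U :=
    fun a ha haU hb V hV => hV.2 a ha (haU V hV) hb
  have hU3 : ∀ a ∈ U, (PA a ∧ a ∉ Set.range g) ∨ ∃ a' : A, ∃ (ha' : PA a') (hb : PB (f ⟨a', ha'⟩)),
      a' ∈ U ∧ g ⟨f ⟨a', ha'⟩, hb⟩ = a := by
    intro a haU
    by_contra hcon
    rw [not_or] at hcon
    obtain ⟨h1, h2⟩ := hcon
    have h3 := haU (U \ {a}) ⟨by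
      intro x hx hxr
      refine ⟨hU1 x hx hxr, ?_⟩
      intro hxa
      have : x = a := hxa
      subst this
      exact h1 ⟨hx, hxr⟩, by
      intro x hx hxU hb
      refine ⟨hU2 x hx hxU.1 hb, ?_⟩
      intro hxa
      exact h2 ⟨x, hx, hb, hxU.1, hxa⟩⟩
    exact h3.2 rfl
  refine ⟨fun a b => (a ∈ U ∧ ∃ ha : PA a, f ⟨a, ha⟩ = b) ∨ (a ∉ U ∧ ∃ hb : PB b, g ⟨b, hb⟩ = a),
    ?_, ?_, ?_, ?_, ?_⟩
  · rintro a b (⟨_, ha, rfl⟩ | ⟨_, hb, rfl⟩)
    · exact hfR ⟨a, ha⟩
    · exact hgR ⟨b, hb⟩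
  · rintro a b b' (⟨h1, ha, rfl⟩ | ⟨h1, hb, h2⟩) (⟨h3, ha', rfl⟩ | ⟨h3, hb', h4⟩)
    · rfl
    · exact absurd h1 h3
    · exact absurd h3 h1
    · have := hg (h2.trans h4.symm)
      exact congrArg Subtype.val this
  · rintro a a' b (⟨h1, ha, h2⟩ | ⟨h1, hb, h2⟩) (⟨h3, ha', h4⟩ | ⟨h3, hb', h4⟩)
    · have := hf (h2.trans h4.symm)
      exact congrArg Subtype.val this
    · exfalso
      subst h2
      apply h3
      rw [← h4]
      exact hU2 a ha h1 hb'
    · exfalso
      subst h4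
      apply h1
      rw [← h2]
      exact hU2 a' ha' h3 hb
    · rw [← h2, ← h4]
  · intro a ha
    by_cases haU : a ∈ U
    · exact ⟨f ⟨a, ha⟩, Or.inl ⟨haU, ha, rfl⟩⟩
    · have : a ∈ Set.range g := by
        by_contra hcon
        exact haU (hU1 a ha hcon)
      obtain ⟨b, hb⟩ := this
      exact ⟨b.1, Or.inr ⟨haU, b.2, hb⟩⟩
  · intro b hb
    by_cases haU : g ⟨b, hb⟩ ∈ U
    · rcases hU3 _ haU with ⟨_, h1⟩ | ⟨a', ha', hb', h1, h2⟩
      · exact absurd ⟨⟨b, hb⟩, rfl⟩ h1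
      · have h3 := hg h2
        have h4 : f ⟨a', ha'⟩ = b := congrArg Subtype.val h3
        exact ⟨a', Or.inl ⟨h1, ha', h4⟩⟩
    · exact ⟨g ⟨b, hb⟩, Or.inr ⟨haU, hb, rfl⟩⟩

end Pool.Agent.ISym
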