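import Mathlib
import Pool.Agent.ISym.Basic
import Pool.Agent.ISym.Greedy

/-!
c-conjugacy in symmetric inverse monoids.
-/

universe u

open Cardinal

namespace Pool.Agent.ISym

variable {X : Type u}

/-- homomorphism condition -/
def Hom (α β g : X ≃. X) : Prop := im α ⊆ dom g ∧ α.trans g = g.trans β

section forward

variable {α β g : X ≃. X}

theorem Hom.edge (h : Hom α β g) {x y x' : X} (hxy : y ∈ α x) (hx : x' ∈ g x) :
    ∃ y', y' ∈ g y ∧ y' ∈ β x' := by
  obtain ⟨y', hy'⟩ := h.1 ⟨x, hxy⟩
  refine ⟨y', hy', ?_⟩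
  have h1 : y' ∈ (α.trans g) x := (PEquiv.mem_trans _ _ _ _).mpr ⟨y, hxy, hy'⟩
  rw [h.2] at h1
  obtain ⟨w, hw, h2⟩ := (PEquiv.mem_trans _ _ _ _).mp h1
  rwa [edge_fun g hw hx] at h2

theorem Hom.dom_subset (h : Hom α β g) {x : X} (hx : x ∈ dom α) : x ∈ dom g := by
  obtain ⟨y, hy⟩ := hx
  obtain ⟨y', hy'⟩ := h.1 ⟨x, hy⟩
  have h1 : y' ∈ (α.trans g) x := (PEquiv.mem_trans _ _ _ _).mpr ⟨y, hy, hy'⟩
  rw [h.2] at h1
  obtain ⟨w, hw, _⟩ := (PEquiv.mem_trans _ _ _ _).mp h1
  exact ⟨w, hw⟩

theorem Hom.not_dom (h : Hom α β g) {x x' : X} (hx : x' ∈ g x) (hxd : x ∉ dom α) : x' ∉ dom β := by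
  rintro ⟨y', hy'⟩
  have h1 : y' ∈ (g.trans β) x := (PEquiv.mem_trans _ _ _ _).mpr ⟨x', hx, hy'⟩
  rw [← h.2] at h1
  obtain ⟨w, hw, _⟩ := (PEquiv.mem_trans _ _ _ _).mp h1
  exact hxd ⟨w, hw⟩

theorem Hom.nstep (h : Hom α β g) {n : ℕ} : ∀ {x y x' : X}, NStep α n x y → x' ∈ g x →
    ∃ y', y' ∈ g y ∧ NStep β n x' y' := by
  induction n with
  | zero =>
    intro x y x' h1 h2
    have : x = y := h1
    subst this
    exact ⟨x', h2, rfl⟩
  | succ n ih =>
    rintro x y x' ⟨z, hz, hzy⟩ h2
    obtain ⟨z', h3, h4⟩ := ih hz h2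
    obtain ⟨y', h5, h6⟩ := h.edge hzy h3
    exact ⟨y', h5, z', h4, h6⟩

theorem Hom.step (h : Hom α β g) {n : ℤ} {x y x' y' : X} (hs : Step α n x y) (hx : x' ∈ g x)
    (hy : y' ∈ g y) : Step β n x' y' := by
  obtain ⟨p, q, w, h1, h2, h3⟩ := hs
  obtain ⟨w', h4, h5⟩ := h.nstep h1 hx
  obtain ⟨w'', h6, h7⟩ := h.nstep h2 hy
  have := edge_fun g h4 h6
  subst this
  exact ⟨p, q, w', h5, h7, h3⟩

theorem Hom.connected (h : Hom α β g) {n : ℕ} : ∀ {x x' y y' : X}, y ∈ g x → y' ∈ g x' →
    NStep β n y y' → ∃ m : ℤ, Step α m x x' := by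
  induction n with
  | zero =>
    intro x x' y y' h1 h2 h3
    have : y = y' := h3
    subst this
    have := edge_inj g h1 h2
    subst this
    exact ⟨0, step_zero α x⟩
  | succ n ih =>
    intro x x' y y' h1 h2 h3
    have h3' : NStep β (1 + n) y y' := by rwa [add_comm]
    obtain ⟨z, h4, h5⟩ := nstep_add.mp h3'
    rw [nstep_one] at h4
    by_cases hx : x ∈ dom α
    · obtain ⟨x1, hx1⟩ := hx
      obtain ⟨z', h6, h7⟩ := h.edge hx1 h1
      have := edge_fun β h4 h7
      subst this
      obtain ⟨m, hm⟩ := ih h6 h2 h5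
      exact ⟨1 + m, step_add (step_one.mpr hx1) hm⟩
    · exact absurd ⟨z, h4⟩ (h.not_dom h1 hx)

theorem Hom.connected' (h : Hom α β g) {n : ℤ} {x x' y y' : X} (h1 : y ∈ g x) (h2 : y' ∈ g x')
    (h3 : Step β n y y') : ∃ m : ℤ, Step α m x x' := by
  rcases le_total 0 n with hn | hn
  · obtain ⟨k, rfl⟩ := Int.eq_ofNat_of_zero_le hn
    exact h.connected h1 h2 (nstep_of_step h3)
  · obtain ⟨k, hk⟩ := Int.eq_ofNat_of_zero_le (neg_nonneg.mpr hn)
    have h4 := step_symm h3
    rw [hk] at h4
    obtain ⟨m, hm⟩ := h.connected h2 h1 (nstep_of_step h4)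
    exact ⟨-m, step_symm hm⟩

/-- nontrivial components -/
def NT (α : X ≃. X) : Type u := {C : Set X // C ∈ components α ∧ (C ⊆ dom α ∨ 1 < C.encard)}

theorem exists_ne_step {C : Set X} (hC : C ∈ components α) (h1 : 1 < C.encard) {x : X} (hx : x ∈ C) :
    x ∈ dom α ∨ x ∈ im α := by
  obtain ⟨y, hy, hne⟩ := Set.exists_ne_of_one_lt_encard h1 x
  rw [← component_eq_of_mem hC hx] at hy
  obtain ⟨n, hn⟩ := mem_component.mp hy
  rcases lt_trichotomy n 0 with h | h | h
  · exact Or.inr (im_of_step_neg h hn)
  · subst h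
    exact absurd (step_zero_iff.mp hn).symm hne
  · exact Or.inl (dom_of_step_pos h hn)

theorem Hom.subset_dom (h : Hom α β g) (C : NT α) : C.1 ⊆ dom g := by
  intro x hx
  rcases C.2.2 with h1 | h1
  · exact h.dom_subset (h1 hx)
  · rcases exists_ne_step C.2.1 h1 hx with h2 | h2
    · exact h.dom_subset h2
    · exact h.1 h2

theorem Hom.exists_map (h : Hom α β g) : ∃ Φ : NT α → Set X, Function.Injective Φ ∧
    (∀ C, Φ C ∈ components β) ∧ ∀ (C : NT α) (x y : X), x ∈ C.1 → y ∈ g x → y ∈ Φ C := by
  have hpt : ∀ C : NT α, ∃ z : X × X, z.1 ∈ C.1 ∧ z.2 ∈ g z.1 := by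
    intro C
    obtain ⟨x, hx⟩ := nonempty_of_mem C.2.1
    obtain ⟨y, hy⟩ := h.subset_dom C hx
    exact ⟨(x, y), hx, hy⟩
  choose z hz1 hz2 using hpt
  refine ⟨fun C => component β (z C).2, ?_, fun C => component_mem β _, ?_⟩
  · intro C C' hCC
    dsimp only at hCC
    have h1 : (z C').2 ∈ component β (z C).2 := by
      rw [hCC]; exact self_mem_component β _
    obtain ⟨n, hn⟩ := mem_component.mp h1
    obtain ⟨m, hm⟩ := h.connected' (hz2 C) (hz2 C') hn
    apply Subtype.ext
    rw [← component_eq_of_mem C.2.1 (hz1 C), ← component_eq_of_mem C'.2.1 (hz1 C')]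
    exact (component_eq (mem_component.mpr ⟨m, hm⟩)).symm
  · intro C x y hx hy
    have h1 : x ∈ component α (z C).1 := by
      rw [component_eq_of_mem C.2.1 (hz1 C)]; exact hx
    obtain ⟨n, hn⟩ := mem_component.mp h1
    exact mem_component.mpr ⟨n, h.step hn (hz2 C) hy⟩

theorem Hom.map_dom (h : Hom α β g) {C : NT α} {D : Set X} (hD : D ∈ components β)
    (hCD : ∀ x y : X, x ∈ C.1 → y ∈ g x → y ∈ D) (hC : C.1 ⊆ dom α) : D ⊆ dom β := by
  obtain ⟨x, hx⟩ := nonempty_of_mem C.2.1
  obtain ⟨y, hy⟩ := h.subset_dom C hx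
  intro z hz
  rw [← component_eq_of_mem hD (hCD x y hx hy)] at hz
  obtain ⟨n, hn⟩ := mem_component.mp hz
  rcases lt_or_ge n 0 with h1 | h1
  · exact dom_of_step_neg h1 hn
  · obtain ⟨k, rfl⟩ := Int.eq_ofNat_of_zero_le h1
    have hC' : component α x ⊆ dom α := by rw [component_eq_of_mem C.2.1 hx]; exact hC
    obtain ⟨w, hw⟩ := exists_step_of_subset_dom hC' k
    obtain ⟨v, hv⟩ := hC' (mem_component.mpr ⟨_, hw⟩)
    obtain ⟨w', hw', h3⟩ := h.nstep (nstep_of_step hw) hy
    have h4 := step_fun (step_of_nstep h3) hn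
    subst h4
    obtain ⟨v', _, h5⟩ := h.edge hv hw'
    exact ⟨v', h5⟩

theorem Hom.map_im (h : Hom α β g) {C : NT α} {D : Set X} (hD : D ∈ components β)
    (hCD : ∀ x y : X, x ∈ C.1 → y ∈ g x → y ∈ D) (hC : C.1 ⊆ im α) : D ⊆ im β := by
  obtain ⟨x, hx⟩ := nonempty_of_mem C.2.1
  obtain ⟨y, hy⟩ := h.subset_dom C hx
  intro z hz
  rw [← component_eq_of_mem hD (hCD x y hx hy)] at hz
  obtain ⟨n, hn⟩ := mem_component.mp hz
  rcases lt_or_ge 0 n with h1 | h1
  · exact im_of_step_pos h1 hn
  · obtain ⟨k, hk⟩ := Int.eq_ofNat_of_zero_le (neg_nonneg.mpr h1)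
    have hn' : n = -(k : ℤ) := by omega
    subst hn'
    have hC' : component α x ⊆ im α := by rw [component_eq_of_mem C.2.1 hx]; exact hC
    obtain ⟨w, hw⟩ := exists_step_neg_of_subset_im hC' k
    have hwC : w ∈ C.1 := by
      rw [← component_eq_of_mem C.2.1 hx]; exact mem_component.mpr ⟨_, hw⟩
    obtain ⟨w', hw'⟩ := h.subset_dom C hwC
    have h4 := step_fun (h.step hw hy hw') hn
    subst h4
    obtain ⟨v, hv⟩ := hC hwC
    obtain ⟨v', hv'⟩ := h.dom_subset ⟨w, hv⟩
    obtain ⟨w'', h5, h6⟩ := h.edge hv hv'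
    have := edge_fun g h5 hw'
    subst this
    exact ⟨v', h6⟩

theorem Hom.map_encard (h : Hom α β g) {C : NT α} {D : Set X}
    (hCD : ∀ x y : X, x ∈ C.1 → y ∈ g x → y ∈ D) : C.1.encard ≤ D.encard := by
  have hex : ∀ x : C.1, ∃ y : D, (y : X) ∈ g x := by
    intro x
    obtain ⟨y, hy⟩ := h.subset_dom C x.2
    exact ⟨⟨y, hCD x y x.2 hy⟩, hy⟩
  choose f hf using hex
  have hinj : Function.Injective f := by
    intro a b hab
    have h1 := hf a
    have h2 := hf b
    rw [hab] at h1
    exact Subtype.ext (edge_inj g h1 h2)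
  exact Function.Embedding.encard_le ⟨f, hinj⟩

theorem Hom.map_encard_eq (h : Hom α β g) {C : NT α} {D : Set X} (hD : D ∈ components β)
    (hCD : ∀ x y : X, x ∈ C.1 → y ∈ g x → y ∈ D) (hC1 : C.1 ⊆ dom α) (hC2 : C.1 ⊆ im α) :
    C.1.encard = D.encard := by
  apply le_antisymm (h.map_encard hCD)
  obtain ⟨x, hx⟩ := nonempty_of_mem C.2.1
  obtain ⟨y, hy⟩ := h.subset_dom C hx
  have hex : ∀ z : D, ∃ w : C.1, (z : X) ∈ g w := by
    rintro ⟨z, hz⟩
    rw [← component_eq_of_mem hD (hCD x y hx hy)] at hz
    obtain ⟨n, hn⟩ := mem_component.mp hz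
    have hw : ∃ w, Step α n x w := by
      rcases le_total 0 n with h1 | h1
      · obtain ⟨k, rfl⟩ := Int.eq_ofNat_of_zero_le h1
        exact exists_step_of_subset_dom (by rw [component_eq_of_mem C.2.1 hx]; exact hC1) k
      · obtain ⟨k, hk⟩ := Int.eq_ofNat_of_zero_le (neg_nonneg.mpr h1)
        have hn' : n = -(k : ℤ) := by omega
        subst hn'
        exact exists_step_neg_of_subset_im (by rw [component_eq_of_mem C.2.1 hx]; exact hC2) k
    obtain ⟨w, hw⟩ := hw
    have hwC : w ∈ C.1 := by
      rw [← component_eq_of_mem C.2.1 hx]; exact mem_component.mpr ⟨_, hw⟩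
    obtain ⟨w', hw'⟩ := h.subset_dom C hwC
    have h4 := step_fun (h.step hw hy hw') hn
    refine ⟨⟨w, hwC⟩, ?_⟩
    show z ∈ g w
    rw [← h4]; exact hw'
  choose f hf using hex
  have hinj : Function.Injective f := by
    intro a b hab
    have h1 := hf a
    have h2 := hf b
    rw [hab] at h1
    exact Subtype.ext (edge_fun g h1 h2)
  exact Function.Embedding.encard_le ⟨f, hinj⟩

theorem Hom.map_not_dom (h : Hom α β g) {C : NT α} {D : Set X}
    (hCD : ∀ x y : X, x ∈ C.1 → y ∈ g x → y ∈ D) (hC : ¬ C.1 ⊆ dom α) : ¬ D ⊆ dom β := by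
  rw [Set.not_subset] at hC
  obtain ⟨t, htC, ht⟩ := hC
  obtain ⟨y, hy⟩ := h.subset_dom C htC
  intro hDsub
  exact h.not_dom hy ht (hDsub (hCD t y htC hy))

/-- the inequalities between the invariants -/
def CondLe (α β : X ≃. X) : Prop :=
  (∀ k : ℕ, 1 ≤ k → numCycles α k ≤ numCycles β k) ∧
  numDoubleRays α ≤ numDoubleRays β ∧
  numEndlessRays α ≤ numEndlessRays β ∧
  numLeftRays α ≤ numLeftRays β ∧
  ∀ l : ℕ, 1 ≤ l → numEnding α l ≤ numEnding β l

theorem Hom.condLe (h : Hom α β g) : CondLe α β := by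
  obtain ⟨Φ, hinj, hmem, hmap⟩ := h.exists_map
  have main : ∀ (P Q : Set X → Prop) (hP : ∀ C, C ∈ components α ∧ P C →
      C ∈ components α ∧ (C ⊆ dom α ∨ 1 < C.encard))
      (_ : ∀ (C : NT α), P C.1 → Q (Φ C)),
      #{C : Set X // C ∈ components α ∧ P C} ≤ #{C : Set X // C ∈ components β ∧ Q C} := by
    intro P Q hP hPQ
    apply Cardinal.mk_le_of_injective (f := fun C : {C : Set X // C ∈ components α ∧ P C} =>
      (⟨Φ ⟨C.1, hP C.1 C.2⟩, hmem _, hPQ ⟨C.1, hP C.1 C.2⟩ C.2.2⟩ :
        {C : Set X // C ∈ components β ∧ Q C}))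
    intro C C' hCC
    have h1 := congrArg Subtype.val hCC
    have h2 := hinj h1
    have h3 := congrArg Subtype.val h2
    exact Subtype.ext h3
  have hinf : ∀ C : Set X, C.Infinite → 1 < C.encard := by
    intro C hC
    rw [hC.encard_eq]
    exact ENat.natCast_lt_top 1
  refine ⟨fun k _ => ?_, ?_, ?_, ?_, fun l hl => ?_⟩
  · apply main (fun C => C ⊆ dom α ∧ C.encard = k) (fun C => C ⊆ dom β ∧ C.encard = k)
    · rintro C ⟨h1, h2, h3⟩; exact ⟨h1, Or.inl h2⟩
    · rintro C ⟨h1, h2⟩
      have hfin : C.1.Finite := Set.finite_of_encard_eq_coe h2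
      have him := subset_im_of_finite C.2.1 hfin h1
      refine ⟨h.map_dom (hmem C) (hmap C) h1, ?_⟩
      rw [← h.map_encard_eq (hmem C) (hmap C) h1 him, h2]
  · apply main (fun C => C.Infinite ∧ C ⊆ dom α ∧ C ⊆ im α) (fun C => C.Infinite ∧ C ⊆ dom β ∧ C ⊆ im β)
    · rintro C ⟨h1, h2, h3, h4⟩; exact ⟨h1, Or.inl h3⟩
    · rintro C ⟨h1, h2, h3⟩
      refine ⟨?_, h.map_dom (hmem C) (hmap C) h2, h.map_im (hmem C) (hmap C) h3⟩
      have h4 := h.map_encard (hmap C)
      rw [h1.encard_eq, top_le_iff] at h4
      exact Set.encard_eq_top_iff.mp h4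
  · apply main (fun C => C.Infinite ∧ C ⊆ dom α) (fun C => C.Infinite ∧ C ⊆ dom β)
    · rintro C ⟨h1, h2, h3⟩; exact ⟨h1, Or.inl h3⟩
    · rintro C ⟨h1, h2⟩
      refine ⟨?_, h.map_dom (hmem C) (hmap C) h2⟩
      have h4 := h.map_encard (hmap C)
      rw [h1.encard_eq, top_le_iff] at h4
      exact Set.encard_eq_top_iff.mp h4
  · apply main (fun C => C.Infinite ∧ ¬ C ⊆ dom α) (fun C => C.Infinite ∧ ¬ C ⊆ dom β)
    · rintro C ⟨h1, h2, h3⟩; exact ⟨h1, Or.inr (hinf C h2)⟩
    · rintro C ⟨h1, h2⟩
      refine ⟨?_, h.map_not_dom (hmap C) h2⟩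
      have h4 := h.map_encard (hmap C)
      rw [h1.encard_eq, top_le_iff] at h4
      exact Set.encard_eq_top_iff.mp h4
  · apply main (fun C => ¬ C ⊆ dom α ∧ (l : ℕ∞) < C.encard) (fun C => ¬ C ⊆ dom β ∧ (l : ℕ∞) < C.encard)
    · rintro C ⟨h1, h2, h3⟩
      refine ⟨h1, Or.inr (lt_of_le_of_lt ?_ h3)⟩
      exact_mod_cast hl
    · rintro C ⟨h1, h2⟩
      exact ⟨h.map_not_dom (hmap C) h1, lt_of_lt_of_le h2 (h.map_encard (hmap C))⟩

end forward

section backward

variable {α β : X ≃. X}

/-- base points of matching components -/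
def Compat (α β : X ≃. X) (b b' : X) : Prop :=
  (∀ (n : ℤ) (x : X), Step α n b x → ∃ y, Step β n b' y) ∧
  (∀ n : ℤ, Step α n b b ↔ Step β n b' b') ∧
  ∀ (n : ℤ) (x y : X), Step α n b x → Step β n b' y → x ∉ dom α → y ∉ dom β

theorem compat_cycle {b b' : X} {k : ℕ} (h1 : component α b ⊆ dom α)
    (h2 : (component α b).encard = k) (h3 : component β b' ⊆ dom β)
    (h4 : (component β b').encard = k) : Compat α β b b' := by
  have him : component β b' ⊆ im β :=
    subset_im_of_finite (component_mem β b') (Set.finite_of_encard_eq_coe h4) h3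
  refine ⟨?_, ?_, ?_⟩
  · intro n _ _
    rcases le_total 0 n with h | h
    · obtain ⟨j, rfl⟩ := Int.eq_ofNat_of_zero_le h
      exact exists_step_of_subset_dom h3 j
    · obtain ⟨j, hj⟩ := Int.eq_ofNat_of_zero_le (neg_nonneg.mpr h)
      have hn' : n = -(j : ℤ) := by omega
      subst hn'
      exact exists_step_neg_of_subset_im him j
  · intro n
    rw [period_iff_dvd h1 h2, period_iff_dvd h3 h4]
  · intro n x y hx _ hxd
    exact absurd (h1 (mem_component.mpr ⟨n, hx⟩)) hxd

theorem no_period {b : X} (h : (component α b).Infinite) (n : ℤ) : Step α n b b ↔ n = 0 := by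
  constructor
  · intro hs
    by_contra hn
    exact h (finite_of_period hn hs)
  · rintro rfl
    exact step_zero α b

theorem compat_double {b b' : X} (h1 : component α b ⊆ dom α) (h2 : (component α b).Infinite)
    (h3 : component β b' ⊆ dom β) (h4 : (component β b').Infinite) (h5 : component β b' ⊆ im β) :
    Compat α β b b' := by
  refine ⟨?_, ?_, ?_⟩
  · intro n _ _
    rcases le_total 0 n with h | h
    · obtain ⟨j, rfl⟩ := Int.eq_ofNat_of_zero_le h
      exact exists_step_of_subset_dom h3 j
    · obtain ⟨j, hj⟩ := Int.eq_ofNat_of_zero_le (neg_nonneg.mpr h)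
      have hn' : n = -(j : ℤ) := by omega
      subst hn'
      exact exists_step_neg_of_subset_im h5 j
  · intro n
    rw [no_period h2, no_period h4]
  · intro n x y hx _ hxd
    exact absurd (h1 (mem_component.mpr ⟨n, hx⟩)) hxd

theorem compat_right {b b' : X} (h1 : component α b ⊆ dom α) (h2 : (component α b).Infinite)
    (hb : b ∉ im α) (h3 : component β b' ⊆ dom β) (h4 : (component β b').Infinite) :
    Compat α β b b' := by
  refine ⟨?_, ?_, ?_⟩
  · intro n x hx
    rcases lt_or_ge n 0 with h | h
    · exact absurd (im_of_step_neg h hx) hb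
    · obtain ⟨j, rfl⟩ := Int.eq_ofNat_of_zero_le h
      exact exists_step_of_subset_dom h3 j
  · intro n
    rw [no_period h2, no_period h4]
  · intro n x y hx _ hxd
    exact absurd (h1 (mem_component.mpr ⟨n, hx⟩)) hxd

theorem step_neg_exists_iff {b : X} (hb : b ∉ dom α) (j : ℕ) :
    (∃ x, Step α (-j) b x) ↔ (j : ℕ∞) < (component α b).encard := by
  constructor
  · rintro ⟨x, hx⟩
    have hall : ∀ i : Fin (j + 1), ∃ y : component α b, Step α (-(i : ℕ)) b y := by
      intro i
      have h1 : -(j : ℤ) ≤ -((i : ℕ) : ℤ) := by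
        have := i.2
        omega
      have h2 : -((i : ℕ) : ℤ) ≤ 0 := by omega
      obtain ⟨y, hy⟩ := step_split_neg h2 h1 hx
      exact ⟨⟨y, mem_component.mpr ⟨_, hy⟩⟩, hy⟩
    choose f hf using hall
    have hinj : Function.Injective f := by
      intro i i' hii
      have h1 := hf i
      have h2 := hf i'
      rw [hii] at h1
      have h3 := step_add h1 (step_symm h2)
      by_contra hne
      have hne' : (i : ℕ) ≠ (i' : ℕ) := fun h => hne (Fin.ext h)
      rcases lt_or_gt_of_ne hne' with h | h
      · exact hb (dom_of_step_pos (by omega) h3)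
      · exact hb (dom_of_step_neg (by omega) h3)
    have h4 : ENat.card (Fin (j + 1)) ≤ (component α b).encard :=
      ENat.card_le_card_of_injective hinj
    rw [ENat.card_eq_coe_fintype_card, Fintype.card_fin] at h4
    refine lt_of_lt_of_le ?_ h4
    exact_mod_cast Nat.lt_succ_self j
  · intro hlt
    by_contra hcon
    push Not at hcon
    apply not_le.mpr hlt
    have hsurj : ∀ y : component α b, ∃ i : Fin j, Step α (-(i : ℕ)) b y := by
      rintro ⟨y, hy⟩
      obtain ⟨n, hn⟩ := mem_component.mp hy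
      have h1 : n ≤ 0 := by
        by_contra h
        exact hb (dom_of_step_pos (by omega) hn)
      have h2 : -(j : ℤ) < n := by
        by_contra h
        push Not at h
        obtain ⟨z, hz⟩ := step_split_neg (m := -(j : ℤ)) (by omega) h hn
        exact hcon z hz
      refine ⟨⟨(-n).toNat, by omega⟩, ?_⟩
      have : -(((-n).toNat : ℕ) : ℤ) = n := by omega
      rw [this]; exact hn
    choose f hf using hsurj
    have hinj : Function.Injective f := by
      intro y z hyz
      have h1 := hf y
      have h2 := hf z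
      rw [hyz] at h1
      exact Subtype.ext (step_fun h1 h2)
    have h4 : (component α b).encard ≤ ENat.card (Fin j) :=
      ENat.card_le_card_of_injective hinj
    rw [ENat.card_eq_coe_fintype_card, Fintype.card_fin] at h4
    exact h4

theorem compat_ending {b b' : X} (hb : b ∉ dom α) (hb' : b' ∉ dom β)
    (h : (component α b).encard ≤ (component β b').encard) : Compat α β b b' := by
  have hper : ∀ (γ : X ≃. X) (c : X), c ∉ dom γ → ∀ n : ℤ, Step γ n c c ↔ n = 0 := by
    intro γ c hc n
    constructor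
    · intro hs
      rcases lt_trichotomy n 0 with h | h | h
      · exact absurd (dom_of_step_neg h hs) hc
      · exact h
      · exact absurd (dom_of_step_pos h hs) hc
    · rintro rfl
      exact step_zero γ c
  refine ⟨?_, ?_, ?_⟩
  · intro n x hx
    have h1 : n ≤ 0 := by
      by_contra h
      exact hb (dom_of_step_pos (by omega) hx)
    obtain ⟨j, hj⟩ := Int.eq_ofNat_of_zero_le (neg_nonneg.mpr h1)
    have hn' : n = -(j : ℤ) := by omega
    subst hn'
    rw [step_neg_exists_iff hb']
    exact lt_of_lt_of_le ((step_neg_exists_iff hb j).mp ⟨x, hx⟩) h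
  · intro n
    rw [hper α b hb, hper β b' hb']
  · intro n x y hx hy hxd
    have h0 : n = 0 := by
      rcases lt_trichotomy n 0 with h | h | h
      · exact absurd (dom_of_step_neg h hx) hxd
      · exact h
      · exact absurd (dom_of_step_pos h hx) hb
    subst h0
    rw [← step_zero_iff.mp hy]
    exact hb'

/-- a partial injective map from a functional and injective relation -/
theorem exists_pequiv (G : X → X → Prop) (h1 : ∀ x y z, G x y → G x z → y = z)
    (h2 : ∀ x y z, G x z → G y z → x = y) : ∃ g : X ≃. X, ∀ x y, y ∈ g x ↔ G x y := by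
  classical
  let F : X → Option X := fun x => if h : ∃ y, G x y then some h.choose else none
  let F' : X → Option X := fun y => if h : ∃ x, G x y then some h.choose else none
  have hF : ∀ x y, y ∈ F x ↔ G x y := by
    intro x y
    show F x = some y ↔ _
    by_cases h : ∃ y, G x y
    · have e : F x = some h.choose := dif_pos h
      rw [e]
      constructor
      · intro h3
        rw [← Option.some.inj h3]; exact h.choose_spec
      · intro h3
        rw [h1 x _ _ h.choose_spec h3]
    · have e : F x = none := dif_neg h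
      rw [e]
      constructor
      · intro h3; exact absurd h3 (by simp)
      · intro h3; exact absurd ⟨y, h3⟩ h
  have hF' : ∀ y x, x ∈ F' y ↔ G x y := by
    intro y x
    show F' y = some x ↔ _
    by_cases h : ∃ x, G x y
    · have e : F' y = some h.choose := dif_pos h
      rw [e]
      constructor
      · intro h3
        rw [← Option.some.inj h3]; exact h.choose_spec
      · intro h3
        rw [h2 _ _ _ h.choose_spec h3]
    · have e : F' y = none := dif_neg h
      rw [e]
      constructor
      · intro h3; exact absurd h3 (by simp)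
      · intro h3; exact absurd ⟨x, h3⟩ h
  exact ⟨⟨F, F', fun a b => (hF' b a).trans (hF a b).symm⟩, hF⟩

theorem exists_hom_of_bases (bA bB : NT α → X) (hA : ∀ C, bA C ∈ C.1)
    (hinj : ∀ C C' : NT α, component β (bB C) = component β (bB C') → C = C')
    (hc : ∀ C, Compat α β (bA C) (bB C)) : ∃ g, Hom α β g := by
  have hcomp : ∀ (C : NT α) (x : X) (n : ℤ), Step α n (bA C) x → component α x = C.1 := by
    intro C x n hn
    apply component_eq_of_mem C.2.1
    rw [← component_eq_of_mem C.2.1 (hA C)]
    exact mem_component.mpr ⟨n, hn⟩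
  obtain ⟨g, hg⟩ := exists_pequiv
    (fun x y => ∃ (C : NT α) (n : ℤ), Step α n (bA C) x ∧ Step β n (bB C) y)
    (by
      rintro x y z ⟨C, n, h1, h2⟩ ⟨C', n', h3, h4⟩
      have e : C = C' := Subtype.ext ((hcomp C x n h1).symm.trans (hcomp C' x n' h3))
      subst e
      have h5 : Step α (n - n') (bA C) (bA C) := by
        rw [sub_eq_add_neg]; exact step_add h1 (step_symm h3)
      have h6 : Step β (n - n') (bB C) (bB C) := ((hc C).2.1 _).mp h5
      have h7 := step_add h6 h4
      rw [sub_add_cancel] at h7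
      exact step_fun h2 h7)
    (by
      rintro x y z ⟨C, n, h1, h2⟩ ⟨C', n', h3, h4⟩
      have e : C = C' := by
        apply hinj
        have e1 : component β z = component β (bB C) := component_eq (mem_component.mpr ⟨n, h2⟩)
        have e2 : component β z = component β (bB C') := component_eq (mem_component.mpr ⟨n', h4⟩)
        rw [← e1, e2]
      subst e
      have h5 : Step β (n - n') (bB C) (bB C) := by
        rw [sub_eq_add_neg]; exact step_add h2 (step_symm h4)
      have h6 : Step α (n - n') (bA C) (bA C) := ((hc C).2.1 _).mpr h5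
      have h7 := step_add h6 h3
      rw [sub_add_cancel] at h7
      exact step_fun h1 h7)
  have hspan : ∀ y : X, (y ∈ dom α ∨ y ∈ im α) →
      ∃ (C : NT α) (n : ℤ), Step α n (bA C) y := by
    intro y hy
    have hNT : component α y ⊆ dom α ∨ 1 < (component α y).encard := by
      by_cases h1 : 1 < (component α y).encard
      · exact Or.inr h1
      · left
        rw [not_lt, Set.encard_le_one_iff] at h1
        have hy' : y ∈ dom α := by
          rcases hy with h2 | ⟨w, hw⟩
          · exact h2
          · have h3 : w ∈ component α y := mem_component.mpr ⟨-1, step_neg_one.mpr hw⟩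
            rw [h1 y w (self_mem_component α y) h3]
            exact ⟨y, hw⟩
        intro z hz
        rw [h1 z y hz (self_mem_component α y)]
        exact hy'
    let C : NT α := ⟨component α y, component_mem α y, hNT⟩
    have h1 : bA C ∈ component α y := hA C
    have h2 : y ∈ component α (bA C) := by
      rw [component_eq h1]; exact self_mem_component α y
    obtain ⟨n, hn⟩ := mem_component.mp h2
    exact ⟨C, n, hn⟩
  refine ⟨g, ?_, ?_⟩
  · intro y hy
    obtain ⟨C, n, hn⟩ := hspan y (Or.inr hy)
    obtain ⟨z, hz⟩ := (hc C).1 n y hn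
    exact ⟨z, (hg y z).mpr ⟨C, n, hn, hz⟩⟩
  · apply PEquiv.ext
    intro x
    apply Option.ext
    intro z
    show z ∈ (α.trans g) x ↔ z ∈ (g.trans β) x
    rw [PEquiv.mem_trans, PEquiv.mem_trans]
    constructor
    · rintro ⟨y, hy, hz⟩
      obtain ⟨C, n, h1, h2⟩ := (hg y z).mp hz
      have h3 : Step α (n + -1) (bA C) x := step_add h1 (step_neg_one.mpr hy)
      obtain ⟨w, hw⟩ := (hc C).1 _ _ h3
      refine ⟨w, (hg x w).mpr ⟨C, _, h3, hw⟩, ?_⟩
      have h4 := step_add (step_symm hw) h2
      have e : -(n + -1) + n = 1 := by ring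
      rw [e] at h4
      exact step_one.mp h4
    · rintro ⟨w, hw, hz⟩
      obtain ⟨C, n, h1, h2⟩ := (hg x w).mp hw
      by_cases hx : x ∈ dom α
      · obtain ⟨y, hy⟩ := hx
        refine ⟨y, hy, (hg y z).mpr ⟨C, n + 1, step_add h1 (step_one.mpr hy), step_add h2 (step_one.mpr hz)⟩⟩
      · exact absurd ⟨z, hz⟩ ((hc C).2.2 n x w h1 h2 hx)

open Classical in
/-- the kind of a component -/
noncomputable def kind (α : X ≃. X) (C : Set X) : ℕ∞ × Bool :=
  if C ⊆ dom α then (C.encard, true) else (0, false)

open Classical in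
/-- the length of a component -/
noncomputable def len (α : X ≃. X) (C : Set X) : ℕ∞ :=
  if C ⊆ dom α then (if C.Infinite ∧ C ⊆ im α then 1 else 0) else C.encard

theorem exists_hom_of_condLe (h : CondLe α β) : ∃ g, Hom α β g := by
  classical
  obtain ⟨hcyc, hdbl, hend, hleft, hchain⟩ := h
  have main : ∀ (P Q : Set X → Prop) (R S : Set X → Prop)
      (_ : ∀ C : NT α, R C.1 → P C.1) (_ : ∀ C, C ∈ components β → Q C → S C)
      (_ : #{C : Set X // C ∈ components α ∧ P C} ≤ #{C : Set X // C ∈ components β ∧ Q C}),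
      #{C : NT α // R C.1} ≤ #{C : {D : Set X // D ∈ components β} // S C.1} := by
    intro P Q R S h1 h2 h3
    refine le_trans ?_ (h3.trans ?_)
    · apply Cardinal.mk_le_of_injective (f := fun C : {C : NT α // R C.1} =>
        (⟨C.1.1, C.1.2.1, h1 C.1 C.2⟩ : {C : Set X // C ∈ components α ∧ P C}))
      intro C C' hCC
      have h4 := congrArg Subtype.val hCC
      exact Subtype.ext (Subtype.ext h4)
    · apply Cardinal.mk_le_of_injective (f := fun C : {C : Set X // C ∈ components β ∧ Q C} =>
        (⟨⟨C.1, C.2.1⟩, h2 C.1 C.2.1 C.2.2⟩ : {C : {D : Set X // D ∈ components β} // S C.1}))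
      intro C C' hCC
      have h4 := congrArg (fun t => t.1.1) hCC
      exact Subtype.ext h4
  obtain ⟨F, hFinj, hF⟩ := exists_kind_len_injection (A := NT α) (B := {D : Set X // D ∈ components β})
    (fun C => kind α C.1) (fun D => kind β D.1) (fun C => len α C.1) (fun D => len β D.1) (by
    intro C
    by_cases hC : C.1 ⊆ dom α
    · have hk : kind α C.1 = (C.1.encard, true) := by unfold kind; rw [if_pos hC]
      rw [hk]
      by_cases hfin : C.1.Finite
      · -- a cycle
        obtain ⟨k, hk2⟩ : ∃ k : ℕ, C.1.encard = k := ⟨C.1.ncard, hfin.cast_ncard_eq.symm⟩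
        have hlen : len α C.1 = 0 := by
          unfold len
          rw [if_pos hC, if_neg (fun h => h.1 hfin)]
        rw [hlen, hk2]
        have hk1 : 1 ≤ k := by
          have h1 : C.1.encard ≠ 0 := (nonempty_of_mem C.2.1).encard_pos.ne'
          rw [hk2] at h1
          have : k ≠ 0 := by exact_mod_cast h1
          omega
        apply main (fun D => D ⊆ dom α ∧ D.encard = k) (fun D => D ⊆ dom β ∧ D.encard = k)
          (fun D => kind α D = ((k : ℕ∞), true) ∧ 0 ≤ len α D)
          (fun D => kind β D = ((k : ℕ∞), true) ∧ 0 ≤ len β D)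
        · rintro D ⟨h1, _⟩
          unfold kind at h1
          split_ifs at h1 with h2
          · exact ⟨h2, congrArg Prod.fst h1⟩
          · exact absurd (congrArg Prod.snd h1) (by simp)
        · rintro D _ ⟨h1, h2⟩
          refine ⟨?_, bot_le⟩
          unfold kind
          rw [if_pos h1, h2]
        · exact hcyc k hk1
      · have hinf : C.1.Infinite := hfin
        rw [hinf.encard_eq]
        by_cases him : C.1 ⊆ im α
        · have hlen : len α C.1 = 1 := by
            unfold len
            rw [if_pos hC, if_pos ⟨hinf, him⟩]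
          rw [hlen]
          apply main (fun D => D.Infinite ∧ D ⊆ dom α ∧ D ⊆ im α) (fun D => D.Infinite ∧ D ⊆ dom β ∧ D ⊆ im β)
            (fun D => kind α D = ((⊤ : ℕ∞), true) ∧ 1 ≤ len α D)
            (fun D => kind β D = ((⊤ : ℕ∞), true) ∧ 1 ≤ len β D)
          · rintro D ⟨h1, h3⟩
            unfold kind at h1
            split_ifs at h1 with h2
            · unfold len at h3
              rw [if_pos h2] at h3
              split_ifs at h3 with h4
              · exact ⟨h4.1, h2, h4.2⟩
              · exact absurd h3 (by simp)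
            · exact absurd (congrArg Prod.snd h1) (by simp)
          · rintro D _ ⟨h1, h2, h3⟩
            refine ⟨?_, ?_⟩
            · unfold kind
              rw [if_pos h2, h1.encard_eq]
            · unfold len
              rw [if_pos h2, if_pos ⟨h1, h3⟩]
          · exact hdbl
        · have hlen : len α C.1 = 0 := by
            unfold len
            rw [if_pos hC, if_neg (fun h => him h.2)]
          rw [hlen]
          apply main (fun D => D.Infinite ∧ D ⊆ dom α) (fun D => D.Infinite ∧ D ⊆ dom β)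
            (fun D => kind α D = ((⊤ : ℕ∞), true) ∧ 0 ≤ len α D)
            (fun D => kind β D = ((⊤ : ℕ∞), true) ∧ 0 ≤ len β D)
          · rintro D ⟨h1, _⟩
            unfold kind at h1
            split_ifs at h1 with h2
            · exact ⟨Set.encard_eq_top_iff.mp (congrArg Prod.fst h1), h2⟩
            · exact absurd (congrArg Prod.snd h1) (by simp)
          · rintro D _ ⟨h1, h2⟩
            refine ⟨?_, bot_le⟩
            unfold kind
            rw [if_pos h2, h1.encard_eq]
          · exact hend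
    · have hk : kind α C.1 = (0, false) := by unfold kind; rw [if_neg hC]
      have hlen : len α C.1 = C.1.encard := by unfold len; rw [if_neg hC]
      rw [hk, hlen]
      have h1C : 1 < C.1.encard := by
        rcases C.2.2 with h | h
        · exact absurd h hC
        · exact h
      by_cases hfin : C.1.Finite
      · obtain ⟨k, hk2⟩ : ∃ k : ℕ, C.1.encard = k := ⟨C.1.ncard, hfin.cast_ncard_eq.symm⟩
        rw [hk2]
        have hk1 : 2 ≤ k := by
          rw [hk2] at h1C
          have : 1 < k := by exact_mod_cast h1C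
          omega
        obtain ⟨l, rfl⟩ : ∃ l, k = l + 1 := ⟨k - 1, by omega⟩
        have hiff : ∀ e : ℕ∞, ((l + 1 : ℕ) : ℕ∞) ≤ e ↔ (l : ℕ∞) < e := by
          intro e
          push_cast
          exact ENat.add_one_le_iff (ENat.natCast_ne_top l)
        apply main (fun D => ¬ D ⊆ dom α ∧ (l : ℕ∞) < D.encard) (fun D => ¬ D ⊆ dom β ∧ (l : ℕ∞) < D.encard)
          (fun D => kind α D = ((0 : ℕ∞), false) ∧ ((l + 1 : ℕ) : ℕ∞) ≤ len α D)
          (fun D => kind β D = ((0 : ℕ∞), false) ∧ ((l + 1 : ℕ) : ℕ∞) ≤ len β D)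
        · rintro D ⟨h1, h3⟩
          unfold kind at h1
          split_ifs at h1 with h2
          · exact absurd (congrArg Prod.snd h1) (by simp)
          · unfold len at h3
            rw [if_neg h2] at h3
            exact ⟨h2, (hiff _).mp h3⟩
        · rintro D _ ⟨h1, h2⟩
          refine ⟨?_, ?_⟩
          · unfold kind
            rw [if_neg h1]
          · unfold len
            rw [if_neg h1]
            exact (hiff _).mpr h2
        · exact hchain l (by omega)
      · have hinf : C.1.Infinite := hfin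
        rw [hinf.encard_eq]
        apply main (fun D => D.Infinite ∧ ¬ D ⊆ dom α) (fun D => D.Infinite ∧ ¬ D ⊆ dom β)
          (fun D => kind α D = ((0 : ℕ∞), false) ∧ ⊤ ≤ len α D)
          (fun D => kind β D = ((0 : ℕ∞), false) ∧ ⊤ ≤ len β D)
        · rintro D ⟨h1, h3⟩
          unfold kind at h1
          split_ifs at h1 with h2
          · exact absurd (congrArg Prod.snd h1) (by simp)
          · unfold len at h3
            rw [if_neg h2, top_le_iff] at h3
            exact ⟨Set.encard_eq_top_iff.mp h3, h2⟩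
        · rintro D _ ⟨h1, h2⟩
          refine ⟨?_, ?_⟩
          · unfold kind
            rw [if_neg h2]
          · unfold len
            rw [if_neg h2, h1.encard_eq]
        · exact hleft)
  -- base points
  have hbase : ∀ C : NT α, ∃ b : X × X, b.1 ∈ C.1 ∧ component β b.2 = (F C).1 ∧ Compat α β b.1 b.2 := by
    intro C
    obtain ⟨hk, hl⟩ := hF C
    have hD := (F C).2
    by_cases hC : C.1 ⊆ dom α
    · have hkC : kind α C.1 = (C.1.encard, true) := by unfold kind; rw [if_pos hC]
      rw [hkC] at hk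
      have hFd : (F C).1 ⊆ dom β := by
        by_contra hcon
        have : kind β (F C).1 = (0, false) := by unfold kind; rw [if_neg hcon]
        rw [this] at hk
        exact absurd (congrArg Prod.snd hk) (by simp)
      have hFe : (F C).1.encard = C.1.encard := by
        have : kind β (F C).1 = ((F C).1.encard, true) := by unfold kind; rw [if_pos hFd]
        rw [this] at hk
        exact congrArg Prod.fst hk
      obtain ⟨b', hb'⟩ := nonempty_of_mem hD
      have hcb' : component β b' = (F C).1 := component_eq_of_mem hD hb'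
      by_cases hfin : C.1.Finite
      · obtain ⟨k, hk2⟩ : ∃ k : ℕ, C.1.encard = k := ⟨C.1.ncard, hfin.cast_ncard_eq.symm⟩
        obtain ⟨b, hb⟩ := nonempty_of_mem C.2.1
        have hcb : component α b = C.1 := component_eq_of_mem C.2.1 hb
        refine ⟨(b, b'), hb, hcb', ?_⟩
        apply compat_cycle (k := k)
        · rw [hcb]; exact hC
        · rw [hcb]; exact hk2
        · rw [hcb']; exact hFd
        · rw [hcb', hFe]; exact hk2
      · have hinf : C.1.Infinite := hfin
        have hFinf : (F C).1.Infinite := by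
          apply Set.encard_eq_top_iff.mp
          rw [hFe, hinf.encard_eq]
        by_cases him : C.1 ⊆ im α
        · obtain ⟨b, hb⟩ := nonempty_of_mem C.2.1
          have hcb : component α b = C.1 := component_eq_of_mem C.2.1 hb
          have hFim : (F C).1 ⊆ im β := by
            have h1 : len α C.1 = 1 := by
              unfold len
              rw [if_pos hC, if_pos ⟨hinf, him⟩]
            rw [h1] at hl
            unfold len at hl
            rw [if_pos hFd] at hl
            split_ifs at hl with h2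
            · exact h2.2
            · exact absurd hl (by simp)
          refine ⟨(b, b'), hb, hcb', ?_⟩
          apply compat_double
          · rw [hcb]; exact hC
          · rw [hcb]; exact hinf
          · rw [hcb']; exact hFd
          · rw [hcb']; exact hFinf
          · rw [hcb']; exact hFim
        · rw [Set.not_subset] at him
          obtain ⟨b, hb, hbim⟩ := him
          have hcb : component α b = C.1 := component_eq_of_mem C.2.1 hb
          refine ⟨(b, b'), hb, hcb', ?_⟩
          apply compat_right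
          · rw [hcb]; exact hC
          · rw [hcb]; exact hinf
          · exact hbim
          · rw [hcb']; exact hFd
          · rw [hcb']; exact hFinf
    · have hkC : kind α C.1 = (0, false) := by unfold kind; rw [if_neg hC]
      rw [hkC] at hk
      have hFd : ¬ (F C).1 ⊆ dom β := by
        intro hcon
        have : kind β (F C).1 = ((F C).1.encard, true) := by unfold kind; rw [if_pos hcon]
        rw [this] at hk
        exact absurd (congrArg Prod.snd hk) (by simp)
      have hlen : C.1.encard ≤ (F C).1.encard := by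
        unfold len at hl
        rw [if_neg hC, if_neg hFd] at hl
        exact hl
      rw [Set.not_subset] at hC hFd
      obtain ⟨b, hb, hbd⟩ := hC
      obtain ⟨b', hb', hbd'⟩ := hFd
      have hcb : component α b = C.1 := component_eq_of_mem C.2.1 hb
      have hcb' : component β b' = (F C).1 := component_eq_of_mem hD hb'
      refine ⟨(b, b'), hb, hcb', ?_⟩
      apply compat_ending hbd hbd'
      rw [hcb, hcb']; exact hlen
  choose b hb1 hb2 hb3 using hbase
  apply exists_hom_of_bases (fun C => (b C).1) (fun C => (b C).2) hb1 _ hb3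
  intro C C' hCC
  rw [hb2, hb2] at hCC
  exact hFinj (Subtype.ext hCC)

end backward

theorem exists_hom_iff {α β : X ≃. X} : (∃ g, Hom α β g) ↔ CondLe α β :=
  ⟨fun ⟨_, h⟩ => h.condLe, exists_hom_of_condLe⟩

end Pool.Agent.ISym
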