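import Mathlib
import Pool.Agent.ISym.Basic
import Pool.Agent.ISym.QOne
import Pool.Agent.ISym.DefsTwo
import Pool.Agent.ISym.Hall

/-!
p-conjugacy in symmetric inverse monoids.
-/

universe u

open Cardinal

namespace Pool.Agent.ISym

variable {X : Type u}

/-- `α = u v` and `β = v u` -/
structure Fact (α β u v : X ≃. X) : Prop where
  left : α = u.trans v
  right : β = v.trans u

section forward

variable {α β u v : X ≃. X}

theorem Fact.swap (h : Fact α β u v) : Fact β α v u := ⟨h.right, h.left⟩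

theorem Fact.memA (h : Fact α β u v) {x x' : X} : x' ∈ α x ↔ ∃ y, y ∈ u x ∧ x' ∈ v y := by
  rw [h.left, PEquiv.mem_trans]

theorem Fact.memB (h : Fact α β u v) {y y' : X} : y' ∈ β y ↔ ∃ x, x ∈ v y ∧ y' ∈ u x := by
  rw [h.right, PEquiv.mem_trans]

theorem Fact.dom_sub (h : Fact α β u v) {x : X} (hx : x ∈ dom α) : x ∈ dom u := by
  obtain ⟨x', hx'⟩ := hx
  obtain ⟨y, hy, _⟩ := h.memA.mp hx'
  exact ⟨y, hy⟩

theorem Fact.im_sub (h : Fact α β u v) {y : X} (hy : y ∈ im β) : y ∈ im u := by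
  obtain ⟨y', hy'⟩ := hy
  obtain ⟨x, _, hx⟩ := h.memB.mp hy'
  exact ⟨x, hx⟩

theorem Fact.nstep (h : Fact α β u v) {n : ℕ} : ∀ {x x' y y' : X}, NStep α n x x' → y ∈ u x →
    y' ∈ u x' → NStep β n y y' := by
  induction n with
  | zero =>
    intro x x' y y' h1 h2 h3
    have : x = x' := h1
    subst this
    exact edge_fun u h2 h3
  | succ n ih =>
    rintro x x' y y' ⟨z, hz, hzx⟩ h2 h3
    obtain ⟨w, hw1, hw2⟩ := h.memA.mp hzx
    exact ⟨w, ih hz h2 hw1, h.memB.mpr ⟨x', hw2, h3⟩⟩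

theorem Fact.im_of_nstep (h : Fact α β u v) {n : ℕ} {y z : X} (hs : NStep β n y z)
    (hy : y ∈ im u) : z ∈ im u := by
  cases n with
  | zero =>
    have : y = z := hs
    rwa [← this]
  | succ n =>
    obtain ⟨w, _, hw⟩ := hs
    exact h.im_sub ⟨w, hw⟩

theorem Fact.nstep_back (h : Fact α β u v) {n : ℕ} : ∀ {x x' y y' : X}, NStep β n y y' → y ∈ u x →
    y' ∈ u x' → NStep α n x x' := by
  induction n with
  | zero =>
    intro x x' y y' h1 h2 h3
    have : y = y' := h1
    subst this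
    exact edge_inj u h2 h3
  | succ n ih =>
    rintro x x' y y' ⟨z, hz, hzx⟩ h2 h3
    obtain ⟨w, hw1, hw2⟩ := h.memB.mp hzx
    have hwx : w = x' := edge_inj u hw2 h3
    subst hwx
    obtain ⟨x'', hx''⟩ := h.im_of_nstep hz ⟨x, h2⟩
    exact ⟨x'', ih hz h2 hx'', h.memA.mpr ⟨z, hx'', hw1⟩⟩

theorem Fact.step (h : Fact α β u v) {n : ℤ} {x x' y y' : X} (h1 : y ∈ u x) (h2 : y' ∈ u x') :
    Step α n x x' ↔ Step β n y y' := by
  rcases le_total 0 n with hn | hn
  · obtain ⟨k, rfl⟩ := Int.eq_ofNat_of_zero_le hn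
    rw [step_nat, step_nat]
    exact ⟨fun hs => h.nstep hs h1 h2, fun hs => h.nstep_back hs h1 h2⟩
  · obtain ⟨k, hk⟩ := Int.eq_ofNat_of_zero_le (neg_nonneg.mpr hn)
    have hn' : n = -(k : ℤ) := by omega
    subst hn'
    rw [step_neg, step_neg, step_nat, step_nat]
    exact ⟨fun hs => h.nstep hs h2 h1, fun hs => h.nstep_back hs h2 h1⟩

theorem NT.exists_dom (C : NT α) : ∃ x ∈ C.1, x ∈ dom α := by
  obtain ⟨x, hx⟩ := nonempty_of_mem C.2.1
  rcases C.2.2 with h1 | h1
  · exact ⟨x, hx, h1 hx⟩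
  · rcases exists_ne_step C.2.1 h1 hx with h2 | ⟨w, hw⟩
    · exact ⟨x, hx, h2⟩
    · refine ⟨w, ?_, ⟨x, hw⟩⟩
      rw [← component_eq_of_mem C.2.1 hx]
      exact mem_component.mpr ⟨-1, step_neg_one.mpr hw⟩

/-- matched components -/
structure Matched (α β u : X ≃. X) (C D : Set X) : Prop where
  hC : C ∈ components α
  hD : D ∈ components β
  mem_iff : ∀ x y, y ∈ u x → (x ∈ C ↔ y ∈ D)
  pt : ∃ x y, x ∈ C ∧ y ∈ u x

theorem Fact.exists_map (h : Fact α β u v) : ∃ Ψ : NT α → Set X, Function.Injective Ψ ∧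
    ∀ C, Matched α β u C.1 (Ψ C) := by
  have hpt : ∀ C : NT α, ∃ z : X × X, z.1 ∈ C.1 ∧ z.2 ∈ u z.1 := by
    intro C
    obtain ⟨x, hx, hx2⟩ := C.exists_dom
    obtain ⟨y, hy⟩ := h.dom_sub hx2
    exact ⟨(x, y), hx, hy⟩
  choose z hz1 hz2 using hpt
  refine ⟨fun C => component β (z C).2, ?_, ?_⟩
  · intro C C' hCC
    dsimp only at hCC
    have h1 : (z C').2 ∈ component β (z C).2 := by
      rw [hCC]; exact self_mem_component β _
    obtain ⟨n, hn⟩ := mem_component.mp h1
    have hm := (h.step (hz2 C) (hz2 C')).mpr hn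
    apply Subtype.ext
    rw [← component_eq_of_mem C.2.1 (hz1 C), ← component_eq_of_mem C'.2.1 (hz1 C')]
    exact (component_eq (mem_component.mpr ⟨n, hm⟩)).symm
  · intro C
    refine ⟨C.2.1, component_mem β _, ?_, ⟨(z C).1, (z C).2, hz1 C, hz2 C⟩⟩
    intro x y hxy
    rw [← component_eq_of_mem C.2.1 (hz1 C), mem_component, mem_component]
    constructor
    · rintro ⟨n, hn⟩
      exact ⟨n, (h.step (hz2 C) hxy).mp hn⟩
    · rintro ⟨n, hn⟩
      exact ⟨n, (h.step (hz2 C) hxy).mpr hn⟩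

variable {C D : Set X}

theorem exists_step_of_mem {γ : X ≃. X} {E : Set X} (hE : E ∈ components γ) {a b : X} (ha : a ∈ E)
    (hb : b ∈ E) : ∃ n : ℤ, Step γ n a b := by
  apply mem_component.mp
  rw [component_eq_of_mem hE ha]
  exact hb

theorem edge_mem {γ : X ≃. X} {E : Set X} (hE : E ∈ components γ) {a b : X} (ha : a ∈ E)
    (h : b ∈ γ a) : b ∈ E := by
  rw [← component_eq_of_mem hE ha]
  exact mem_component.mpr ⟨1, step_one.mpr h⟩

theorem edge_mem' {γ : X ≃. X} {E : Set X} (hE : E ∈ components γ) {a b : X} (hb : b ∈ E)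
    (h : b ∈ γ a) : a ∈ E := by
  rw [← component_eq_of_mem hE hb]
  exact mem_component.mpr ⟨-1, step_neg_one.mpr h⟩

theorem Matched.dom_iff (h : Fact α β u v) (m : Matched α β u C D) : C ⊆ dom α ↔ D ⊆ dom β := by
  obtain ⟨x, y, hx, hxy⟩ := m.pt
  have hy : y ∈ D := (m.mem_iff x y hxy).mp hx
  constructor
  · intro hC z hz
    by_cases hzu : z ∈ im u
    · obtain ⟨w, hw⟩ := hzu
      have hwC := (m.mem_iff w z hw).mpr hz
      obtain ⟨w', hw'⟩ := hC hwC
      have hw'C := edge_mem m.hC hwC hw'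
      obtain ⟨z', hz'⟩ := h.dom_sub (hC hw'C)
      obtain ⟨y1, h1, h2⟩ := h.memA.mp hw'
      rw [edge_fun u h1 hw] at h2
      exact ⟨z', h.memB.mpr ⟨w', h2, hz'⟩⟩
    · obtain ⟨n, hn⟩ := exists_step_of_mem m.hD hz hy
      rcases lt_trichotomy n 0 with h1 | h1 | h1
      · exact absurd (h.im_sub (im_of_step_neg h1 hn)) hzu
      · subst h1
        rw [step_zero_iff] at hn
        rw [hn] at hzu
        exact absurd ⟨x, hxy⟩ hzu
      · exact dom_of_step_pos h1 hn
  · intro hD z hz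
    by_cases hzu : z ∈ dom u
    · obtain ⟨w, hw⟩ := hzu
      obtain ⟨w', hw'⟩ := hD ((m.mem_iff z w hw).mp hz)
      obtain ⟨z', h1, _⟩ := h.memB.mp hw'
      exact ⟨z', h.memA.mpr ⟨w, hw, h1⟩⟩
    · obtain ⟨n, hn⟩ := exists_step_of_mem m.hC hx hz
      rcases lt_trichotomy n 0 with h1 | h1 | h1
      · exact absurd (h.dom_sub (dom_of_step_neg h1 hn)) hzu
      · subst h1
        rw [step_zero_iff] at hn
        rw [← hn] at hzu
        exact absurd ⟨y, hxy⟩ hzu
      · obtain ⟨w, hw⟩ := im_of_step_pos h1 hn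
        obtain ⟨y1, h2, h3⟩ := h.memA.mp hw
        have hwC := edge_mem' m.hC hz hw
        obtain ⟨y2, hy2⟩ := hD ((m.mem_iff w y1 h2).mp hwC)
        obtain ⟨z', h4, h5⟩ := h.memB.mp hy2
        rw [edge_fun v h4 h3] at h5
        exact absurd ⟨y2, h5⟩ hzu

theorem Matched.im_iff (h : Fact α β u v) (m : Matched α β u C D) : C ⊆ im α ↔ D ⊆ im β := by
  obtain ⟨x, y, hx, hxy⟩ := m.pt
  have hy : y ∈ D := (m.mem_iff x y hxy).mp hx
  constructor
  · intro hC z hz
    by_cases hzu : z ∈ im u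
    · obtain ⟨w, hw⟩ := hzu
      obtain ⟨w1, hw1⟩ := hC ((m.mem_iff w z hw).mpr hz)
      obtain ⟨y1, _, h2⟩ := h.memA.mp hw1
      exact ⟨y1, h.memB.mpr ⟨w, h2, hw⟩⟩
    · obtain ⟨n, hn⟩ := exists_step_of_mem m.hD hy hz
      rcases lt_trichotomy n 0 with h1 | h1 | h1
      · obtain ⟨z', hz'⟩ := dom_of_step_neg h1 hn
        obtain ⟨w, h2, h3⟩ := h.memB.mp hz'
        have hwC := (m.mem_iff w z' h3).mpr (edge_mem m.hD hz hz')
        obtain ⟨w1, hw1⟩ := hC hwC
        obtain ⟨y1, h4, h5⟩ := h.memA.mp hw1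
        rw [edge_inj v h5 h2] at h4
        exact absurd ⟨w1, h4⟩ hzu
      · subst h1
        rw [step_zero_iff] at hn
        rw [← hn] at hzu
        exact absurd ⟨x, hxy⟩ hzu
      · exact im_of_step_pos h1 hn
  · intro hD z hz
    by_cases hzu : z ∈ dom u
    · obtain ⟨w, hw⟩ := hzu
      have hwD := (m.mem_iff z w hw).mp hz
      obtain ⟨w1, hw1⟩ := hD hwD
      obtain ⟨z1, h1, h2⟩ := h.memB.mp hw1
      rw [edge_inj u h2 hw] at h1
      obtain ⟨x1, hx1⟩ := h.im_sub (hD (edge_mem' m.hD hwD hw1))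
      exact ⟨x1, h.memA.mpr ⟨w1, hx1, h1⟩⟩
    · obtain ⟨n, hn⟩ := exists_step_of_mem m.hC hx hz
      rcases lt_trichotomy n 0 with h1 | h1 | h1
      · exact absurd (h.dom_sub (dom_of_step_neg h1 hn)) hzu
      · subst h1
        rw [step_zero_iff] at hn
        rw [← hn] at hzu
        exact absurd ⟨y, hxy⟩ hzu
      · exact im_of_step_pos h1 hn

theorem Matched.card_dom (m : Matched α β u C D) : (C ∩ dom u).encard ≤ D.encard := by
  have hex : ∀ x : ↥(C ∩ dom u), ∃ y : D, (y : X) ∈ u x := by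
    rintro ⟨x, hx, y, hy⟩
    exact ⟨⟨y, (m.mem_iff x y hy).mp hx⟩, hy⟩
  choose f hf using hex
  have hinj : Function.Injective f := by
    intro a b hab
    have h1 := hf a
    have h2 := hf b
    rw [hab] at h1
    exact Subtype.ext (edge_inj u h1 h2)
  exact Function.Embedding.encard_le ⟨f, hinj⟩

theorem Matched.card_im (m : Matched α β u C D) : (D ∩ im u).encard ≤ C.encard := by
  have hex : ∀ y : ↥(D ∩ im u), ∃ x : C, (y : X) ∈ u x := by
    rintro ⟨y, hy, x, hx⟩
    exact ⟨⟨x, (m.mem_iff x y hx).mpr hy⟩, hx⟩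
  choose f hf using hex
  have hinj : Function.Injective f := by
    intro a b hab
    have h1 := hf a
    have h2 := hf b
    rw [hab] at h1
    exact Subtype.ext (edge_fun u h1 h2)
  exact Function.Embedding.encard_le ⟨f, hinj⟩

theorem Matched.le_succ (h : Fact α β u v) (m : Matched α β u C D) : C.encard ≤ D.encard + 1 := by
  have h1 : (C \ dom u).encard ≤ 1 := by
    rw [Set.encard_le_one_iff]
    rintro a b ⟨ha, ha'⟩ ⟨hb, hb'⟩
    obtain ⟨n, hn⟩ := exists_step_of_mem m.hC ha hb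
    rcases lt_trichotomy n 0 with h1 | h1 | h1
    · exact absurd (h.dom_sub (dom_of_step_neg h1 hn)) hb'
    · subst h1
      exact step_zero_iff.mp hn
    · exact absurd (h.dom_sub (dom_of_step_pos h1 hn)) ha'
  calc C.encard = ((C ∩ dom u) ∪ (C \ dom u)).encard := by rw [Set.inter_union_sdiff]
    _ ≤ (C ∩ dom u).encard + (C \ dom u).encard := Set.encard_union_le _ _
    _ ≤ D.encard + 1 := add_le_add m.card_dom h1

theorem Matched.ge_pred (h : Fact α β u v) (m : Matched α β u C D) : D.encard ≤ C.encard + 1 := by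
  have h1 : (D \ im u).encard ≤ 1 := by
    rw [Set.encard_le_one_iff]
    rintro a b ⟨ha, ha'⟩ ⟨hb, hb'⟩
    obtain ⟨n, hn⟩ := exists_step_of_mem m.hD ha hb
    rcases lt_trichotomy n 0 with h1 | h1 | h1
    · exact absurd (h.im_sub (im_of_step_neg h1 hn)) ha'
    · subst h1
      exact step_zero_iff.mp hn
    · exact absurd (h.im_sub (im_of_step_pos h1 hn)) hb'
  calc D.encard = ((D ∩ im u) ∪ (D \ im u)).encard := by rw [Set.inter_union_sdiff]
    _ ≤ (D ∩ im u).encard + (D \ im u).encard := Set.encard_union_le _ _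
    _ ≤ C.encard + 1 := add_le_add m.card_im h1

theorem Matched.encard_eq (h : Fact α β u v) (m : Matched α β u C D) (h1 : C ⊆ dom α)
    (h2 : C ⊆ im α) : C.encard = D.encard := by
  apply le_antisymm
  · have h3 : C ∩ dom u = C := Set.inter_eq_left.mpr (fun x hx => h.dom_sub (h1 hx))
    have := m.card_dom
    rwa [h3] at this
  · have h3 : D ∩ im u = D := Set.inter_eq_left.mpr (fun x hx => h.im_sub ((m.im_iff h).mp h2 hx))
    have := m.card_im
    rwa [h3] at this

theorem Matched.infinite (h : Fact α β u v) (m : Matched α β u C D) (hC : C.Infinite) :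
    D.Infinite := by
  have h1 := m.le_succ h
  rw [hC.encard_eq, top_le_iff] at h1
  rw [← Set.encard_eq_top_iff]
  by_contra hne
  have := WithTop.add_lt_top.mpr ⟨lt_top_iff_ne_top.mpr hne, (ENat.natCast_lt_top 1 : ((1 : ℕ) : ℕ∞) < ⊤)⟩
  exact absurd h1 this.ne

/-- the one-sided inequalities between the invariants -/
def PCondLe (α β : X ≃. X) : Prop :=
  (∀ k : ℕ, 1 ≤ k → numCycles α k ≤ numCycles β k) ∧
  numDoubleRays α ≤ numDoubleRays β ∧
  numRightRays α ≤ numRightRays β ∧
  numLeftRays α ≤ numLeftRays β ∧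
  ∀ i j : ℕ, 1 ≤ i → i < j → numChains α (i + 1) j ≤ numChains β i (j + 1)

theorem Fact.condLe (h : Fact α β u v) : PCondLe α β := by
  obtain ⟨Ψ, hinj, hmap⟩ := h.exists_map
  have main : ∀ (P Q : Set X → Prop) (hP : ∀ C, C ∈ components α ∧ P C →
      C ∈ components α ∧ (C ⊆ dom α ∨ 1 < C.encard))
      (_ : ∀ (C : NT α), P C.1 → Q (Ψ C)),
      #{C : Set X // C ∈ components α ∧ P C} ≤ #{C : Set X // C ∈ components β ∧ Q C} := by
    intro P Q hP hPQ
    apply Cardinal.mk_le_of_injective (f := fun C : {C : Set X // C ∈ components α ∧ P C} =>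
      (⟨Ψ ⟨C.1, hP C.1 C.2⟩, (hmap _).hD, hPQ ⟨C.1, hP C.1 C.2⟩ C.2.2⟩ :
        {C : Set X // C ∈ components β ∧ Q C}))
    intro C C' hCC
    have h1 := congrArg Subtype.val hCC
    have h2 := hinj h1
    have h3 := congrArg Subtype.val h2
    exact Subtype.ext h3
  have hinf : ∀ C : Set X, C.Infinite → 1 < C.encard := by
    intro C hC
    rw [hC.encard_eq]
    exact ENat.natCast_lt_top 1
  refine ⟨fun k _ => ?_, ?_, ?_, ?_, fun i j hi hij => ?_⟩
  · apply main (fun C => C ⊆ dom α ∧ C.encard = k) (fun C => C ⊆ dom β ∧ C.encard = k)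
    · rintro C ⟨h1, h2, h3⟩; exact ⟨h1, Or.inl h2⟩
    · rintro C ⟨h1, h2⟩
      have hfin : C.1.Finite := Set.finite_of_encard_eq_coe h2
      have him := subset_im_of_finite C.2.1 hfin h1
      refine ⟨((hmap C).dom_iff h).mp h1, ?_⟩
      rw [← (hmap C).encard_eq h h1 him, h2]
  · apply main (fun C => C.Infinite ∧ C ⊆ dom α ∧ C ⊆ im α) (fun C => C.Infinite ∧ C ⊆ dom β ∧ C ⊆ im β)
    · rintro C ⟨h1, h2, h3, h4⟩; exact ⟨h1, Or.inl h3⟩
    · rintro C ⟨h1, h2, h3⟩
      exact ⟨(hmap C).infinite h h1, ((hmap C).dom_iff h).mp h2, ((hmap C).im_iff h).mp h3⟩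
  · apply main (fun C => C.Infinite ∧ C ⊆ dom α ∧ ¬ C ⊆ im α)
      (fun C => C.Infinite ∧ C ⊆ dom β ∧ ¬ C ⊆ im β)
    · rintro C ⟨h1, h2, h3, h4⟩; exact ⟨h1, Or.inl h3⟩
    · rintro C ⟨h1, h2, h3⟩
      exact ⟨(hmap C).infinite h h1, ((hmap C).dom_iff h).mp h2,
        fun h4 => h3 (((hmap C).im_iff h).mpr h4)⟩
  · apply main (fun C => C.Infinite ∧ ¬ C ⊆ dom α) (fun C => C.Infinite ∧ ¬ C ⊆ dom β)
    · rintro C ⟨h1, h2, h3⟩; exact ⟨h1, Or.inr (hinf C h2)⟩
    · rintro C ⟨h1, h2⟩
      exact ⟨(hmap C).infinite h h1, fun h4 => h2 (((hmap C).dom_iff h).mpr h4)⟩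
  · apply main (fun C => ¬ C ⊆ dom α ∧ ((i + 1 : ℕ) : ℕ∞) ≤ C.encard ∧ C.encard ≤ (j : ℕ∞))
      (fun C => ¬ C ⊆ dom β ∧ (i : ℕ∞) ≤ C.encard ∧ C.encard ≤ ((j + 1 : ℕ) : ℕ∞))
    · rintro C ⟨h1, h2, h3, h4⟩
      refine ⟨h1, Or.inr (lt_of_lt_of_le ?_ h3)⟩
      exact_mod_cast Nat.lt_succ_of_le hi
    · rintro C ⟨h1, h2, h3⟩
      refine ⟨fun h4 => h1 (((hmap C).dom_iff h).mpr h4), ?_, ?_⟩
      · have h5 := h2.trans ((hmap C).le_succ h)
        push_cast at h5
        exact (ENat.add_le_add_iff_right (by simp)).mp h5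
      · have h5 := ((hmap C).ge_pred h).trans (add_le_add h3 le_rfl)
        push_cast
        exact h5

end forward

section backward

variable {α β : X ≃. X}

/-- compatible base points for p-conjugacy -/
def PCompat (α β : X ≃. X) (b b' : X) : Prop :=
  (∀ (n : ℤ) (x x' : X), Step α n b x → Step α (n + 1) b x' → ∃ y, Step β n b' y) ∧
  (∀ (n : ℤ) (y y' : X), Step β n b' y → Step β (n + 1) b' y' → ∃ x, Step α (n + 1) b x) ∧
  (∀ n : ℤ, Step α n b b ↔ Step β n b' b')

theorem exists_step_all {b : X} (h1 : component α b ⊆ dom α) (h2 : component α b ⊆ im α) (n : ℤ) :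
    ∃ x, Step α n b x := by
  rcases le_total 0 n with h | h
  · obtain ⟨j, rfl⟩ := Int.eq_ofNat_of_zero_le h
    exact exists_step_of_subset_dom h1 j
  · obtain ⟨j, hj⟩ := Int.eq_ofNat_of_zero_le (neg_nonneg.mpr h)
    have hn' : n = -(j : ℤ) := by omega
    subst hn'
    exact exists_step_neg_of_subset_im h2 j

theorem exists_step_nonneg {b : X} (h1 : component α b ⊆ dom α) {n : ℤ} (hn : 0 ≤ n) :
    ∃ x, Step α n b x := by
  obtain ⟨j, rfl⟩ := Int.eq_ofNat_of_zero_le hn
  exact exists_step_of_subset_dom h1 j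

theorem terminal_period {b : X} (hb : b ∉ dom α) (n : ℤ) : Step α n b b ↔ n = 0 := by
  constructor
  · intro hs
    rcases lt_trichotomy n 0 with h | h | h
    · exact absurd (dom_of_step_neg h hs) hb
    · exact h
    · exact absurd (dom_of_step_pos h hs) hb
  · rintro rfl
    exact step_zero α b

theorem terminal_step {b : X} (hb : b ∉ dom α) (n : ℤ) :
    (∃ x, Step α n b x) ↔ n ≤ 0 ∧ ((-n).toNat : ℕ∞) < (component α b).encard := by
  constructor
  · rintro ⟨x, hx⟩
    have h1 : n ≤ 0 := by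
      by_contra h
      exact hb (dom_of_step_pos (by omega) hx)
    refine ⟨h1, ?_⟩
    rw [← step_neg_exists_iff hb]
    refine ⟨x, ?_⟩
    rwa [show -(((-n).toNat : ℕ) : ℤ) = n by omega]
  · rintro ⟨h1, h2⟩
    rw [← step_neg_exists_iff hb] at h2
    obtain ⟨x, hx⟩ := h2
    refine ⟨x, ?_⟩
    rwa [show -(((-n).toNat : ℕ) : ℤ) = n by omega] at hx

theorem pcompat_right {b b' : X} (h1 : component α b ⊆ dom α) (h2 : (component α b).Infinite)
    (hb : b ∉ im α) (h3 : component β b' ⊆ dom β) (h4 : (component β b').Infinite)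
    (hb' : b' ∉ im β) : PCompat α β b b' := by
  refine ⟨?_, ?_, ?_⟩
  · intro n x _ hx _
    apply exists_step_nonneg h3
    by_contra h
    exact hb (im_of_step_neg (by omega) hx)
  · intro n y _ hy _
    apply exists_step_nonneg h1
    by_contra h
    exact hb' (im_of_step_neg (by omega) hy)
  · intro n
    rw [no_period h2, no_period h4]

theorem pcompat_end_le {b b' : X} (hb : b ∉ dom α) (hb' : b' ∉ dom β)
    (h1 : (component α b).encard ≤ (component β b').encard)
    (h2 : (component β b').encard ≤ (component α b).encard + 1) : PCompat α β b b' := by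
  refine ⟨?_, ?_, ?_⟩
  · intro n x _ hx _
    rw [terminal_step hb']
    obtain ⟨h3, h4⟩ := (terminal_step hb n).mp ⟨x, hx⟩
    exact ⟨h3, lt_of_lt_of_le h4 h1⟩
  · intro n y y' hy hy'
    rw [terminal_step hb]
    obtain ⟨h3, h4⟩ := (terminal_step hb' n).mp ⟨y, hy⟩
    obtain ⟨h5, _⟩ := (terminal_step hb' (n + 1)).mp ⟨y', hy'⟩
    refine ⟨h5, ?_⟩
    have h6 := lt_of_lt_of_le h4 h2
    have h7 : (-n).toNat = (-(n + 1)).toNat + 1 := by omega
    rw [h7] at h6
    push_cast at h6
    exact (ENat.add_lt_add_iff_right (by simp)).mp h6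
  · intro n
    rw [terminal_period hb, terminal_period hb']

theorem pcompat_end_gt {b b' p : X} (hb : b ∉ dom α) (hb' : b' ∉ dom β) (hp : b ∈ α p)
    (h1 : (component α b).encard = (component β b').encard + 1) : PCompat α β p b' := by
  have hbp : Step α (-1) b p := step_neg_one.mpr hp
  have hpb : Step α 1 p b := step_one.mpr hp
  have hconv : ∀ (n : ℤ) (x : X), Step α n p x → Step α (n - 1) b x := by
    intro n x hx
    have := step_add hbp hx
    rwa [show (-1 + n) = n - 1 by ring] at this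
  have hconv' : ∀ (n : ℤ) (x : X), Step α (n - 1) b x → Step α n p x := by
    intro n x hx
    have := step_add hpb hx
    rwa [show (1 + (n - 1)) = n by ring] at this
  refine ⟨?_, ?_, ?_⟩
  · intro n x x' hx hx'
    have h2 := hconv _ _ hx
    have h3 := hconv _ _ hx'
    rw [show n + 1 - 1 = n by ring] at h3
    obtain ⟨h4, _⟩ := (terminal_step hb n).mp ⟨x', h3⟩
    obtain ⟨_, h5⟩ := (terminal_step hb (n - 1)).mp ⟨x, h2⟩
    rw [terminal_step hb']
    refine ⟨h4, ?_⟩
    rw [h1, show (-(n - 1)).toNat = (-n).toNat + 1 by omega] at h5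
    push_cast at h5
    exact (ENat.add_lt_add_iff_right (by simp)).mp h5
  · intro n y y' hy hy'
    obtain ⟨_, h4⟩ := (terminal_step hb' n).mp ⟨y, hy⟩
    obtain ⟨h5, _⟩ := (terminal_step hb' (n + 1)).mp ⟨y', hy'⟩
    have h6 : ∃ x, Step α n b x := by
      rw [terminal_step hb]
      refine ⟨by omega, lt_of_lt_of_le h4 ?_⟩
      rw [h1]
      exact le_self_add
    obtain ⟨x, hx⟩ := h6
    refine ⟨x, hconv' _ _ ?_⟩
    rwa [show n + 1 - 1 = n by ring]
  · intro n
    rw [terminal_period hb', ← terminal_period hb]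
    constructor
    · intro h
      have := step_add (step_add hbp h) hpb
      rwa [show (-1 + n + 1) = n by ring] at this
    · intro h
      have := step_add (step_add hpb h) hbp
      rwa [show (1 + n + -1) = n by ring] at this

theorem exists_fact_of_bases {I : Type*} (p q : I → X)
    (hp : ∀ i j, component α (p i) = component α (p j) → i = j)
    (hq : ∀ i j, component β (q i) = component β (q j) → i = j)
    (hc : ∀ i, PCompat α β (p i) (q i))
    (hA : ∀ x, x ∈ dom α → ∃ i, x ∈ component α (p i))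
    (hB : ∀ y, y ∈ dom β → ∃ i, y ∈ component β (q i)) : ∃ u v, Fact α β u v := by
  have hpeq : ∀ {i j : I} {m n : ℤ} {x : X}, Step α m (p i) x → Step α n (p j) x → i = j := by
    intro i j m n x h1 h2
    apply hp
    rw [← component_eq (mem_component.mpr ⟨m, h1⟩), ← component_eq (mem_component.mpr ⟨n, h2⟩)]
  have hqeq : ∀ {i j : I} {m n : ℤ} {x : X}, Step β m (q i) x → Step β n (q j) x → i = j := by
    intro i j m n x h1 h2
    apply hq
    rw [← component_eq (mem_component.mpr ⟨m, h1⟩), ← component_eq (mem_component.mpr ⟨n, h2⟩)]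
  -- transfer between the two sides
  have hAB : ∀ {i : I} {m n k : ℤ} {x y : X}, Step α m (p i) x → Step α n (p i) x →
      Step β (m + k) (q i) y → Step β (n + k) (q i) y := by
    intro i m n k x y h1 h2 h3
    have h4 : Step α (n - m) (p i) (p i) := by
      rw [sub_eq_add_neg]; exact step_add h2 (step_symm h1)
    have h5 := step_add (((hc i).2.2 _).mp h4) h3
    rwa [show n - m + (m + k) = n + k by ring] at h5
  have hBA : ∀ {i : I} {m n k : ℤ} {x y : X}, Step β m (q i) x → Step β n (q i) x →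
      Step α (m + k) (p i) y → Step α (n + k) (p i) y := by
    intro i m n k x y h1 h2 h3
    have h4 : Step β (n - m) (q i) (q i) := by
      rw [sub_eq_add_neg]; exact step_add h2 (step_symm h1)
    have h5 := step_add (((hc i).2.2 _).mpr h4) h3
    rwa [show n - m + (m + k) = n + k by ring] at h5
  obtain ⟨u, hu⟩ := exists_pequiv
    (fun x y => ∃ (i : I) (n : ℤ), Step α n (p i) x ∧ Step β n (q i) y)
    (by
      rintro x y z ⟨i, n, h1, h2⟩ ⟨j, m, h3, h4⟩
      obtain rfl := hpeq h1 h3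
      have h5 := hAB (k := 0) h3 h1 (by simpa using h4)
      exact step_fun h2 (by simpa using h5))
    (by
      rintro x y z ⟨i, n, h1, h2⟩ ⟨j, m, h3, h4⟩
      obtain rfl := hqeq h2 h4
      have h5 := hBA (k := 0) h4 h2 (by simpa using h3)
      exact step_fun h1 (by simpa using h5))
  obtain ⟨v, hv⟩ := exists_pequiv
    (fun y x => ∃ (i : I) (n : ℤ), Step β n (q i) y ∧ Step α (n + 1) (p i) x)
    (by
      rintro x y z ⟨i, n, h1, h2⟩ ⟨j, m, h3, h4⟩
      obtain rfl := hqeq h1 h3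
      have h5 := hBA (k := 1) h3 h1 h4
      exact step_fun h2 h5)
    (by
      rintro x y z ⟨i, n, h1, h2⟩ ⟨j, m, h3, h4⟩
      obtain rfl := hpeq h2 h4
      have h5 := hAB (k := -1) h4 h2 (by simpa using h3)
      exact step_fun h1 (by simpa using h5))
  refine ⟨u, v, ?_, ?_⟩
  · apply PEquiv.ext
    intro x
    apply Option.ext
    intro x'
    show x' ∈ α x ↔ x' ∈ (u.trans v) x
    rw [PEquiv.mem_trans]
    constructor
    · intro hx'
      obtain ⟨i, hi⟩ := hA x ⟨x', hx'⟩
      obtain ⟨n, hn⟩ := mem_component.mp hi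
      have h2 := step_add hn (step_one.mpr hx')
      obtain ⟨y, hy⟩ := (hc i).1 n x x' hn h2
      exact ⟨y, (hu x y).mpr ⟨i, n, hn, hy⟩, (hv y x').mpr ⟨i, n, hy, h2⟩⟩
    · rintro ⟨y, h1, h2⟩
      obtain ⟨i, n, h3, h4⟩ := (hu x y).mp h1
      obtain ⟨j, m, h5, h6⟩ := (hv y x').mp h2
      obtain rfl := hqeq h4 h5
      have h7 := hBA (k := 1) h5 h4 h6
      have h8 := step_add (step_symm h3) h7
      rw [show -n + (n + 1) = 1 by ring] at h8
      exact step_one.mp h8
  · apply PEquiv.ext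
    intro y
    apply Option.ext
    intro y'
    show y' ∈ β y ↔ y' ∈ (v.trans u) y
    rw [PEquiv.mem_trans]
    constructor
    · intro hy'
      obtain ⟨i, hi⟩ := hB y ⟨y', hy'⟩
      obtain ⟨n, hn⟩ := mem_component.mp hi
      have h2 := step_add hn (step_one.mpr hy')
      obtain ⟨x, hx⟩ := (hc i).2.1 n y y' hn h2
      exact ⟨x, (hv y x).mpr ⟨i, n, hn, hx⟩, (hu x y').mpr ⟨i, n + 1, hx, h2⟩⟩
    · rintro ⟨x, h1, h2⟩
      obtain ⟨i, n, h3, h4⟩ := (hv y x).mp h1
      obtain ⟨j, m, h5, h6⟩ := (hu x y').mp h2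
      obtain rfl := hpeq h4 h5
      have h7 := hAB (k := 0) h5 h4 (by simpa using h6)
      rw [add_zero] at h7
      have h8 := step_add (step_symm h3) h7
      rw [show -n + (n + 1) = 1 by ring] at h8
      exact step_one.mp h8

/-- components that may be matched -/
def Near (α β : X ≃. X) (C D : Set X) : Prop :=
  (C.encard = D.encard ∧ C ⊆ dom α ∧ D ⊆ dom β ∧ (C ⊆ im α ↔ D ⊆ im β)) ∨
  (¬ C ⊆ dom α ∧ ¬ D ⊆ dom β ∧ C.encard ≤ D.encard + 1 ∧ D.encard ≤ C.encard + 1)

theorem Near.symm {C D : Set X} (h : Near α β C D) : Near β α D C := by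
  rcases h with ⟨h1, h2, h3, h4⟩ | ⟨h1, h2, h3, h4⟩
  · exact Or.inl ⟨h1.symm, h3, h2, h4.symm⟩
  · exact Or.inr ⟨h2, h1, h4, h3⟩

theorem Near.bases {C D : Set X} (hC : C ∈ components α) (hD : D ∈ components β)
    (h : Near α β C D) : ∃ b b', component α b = C ∧ component β b' = D ∧ PCompat α β b b' := by
  obtain ⟨b, hb⟩ := nonempty_of_mem hC
  obtain ⟨b', hb'⟩ := nonempty_of_mem hD
  have hbC := component_eq_of_mem hC hb
  have hbD := component_eq_of_mem hD hb'
  rcases h with ⟨h1, h2, h3, h4⟩ | ⟨h1, h2, h3, h4⟩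
  · by_cases him : C ⊆ im α
    · refine ⟨b, b', hbC, hbD, ?_, ?_, ?_⟩
      · intro n _ _ _ _
        exact exists_step_all (by rw [hbD]; exact h3) (by rw [hbD]; exact h4.mp him) n
      · intro n _ _ _ _
        exact exists_step_all (by rw [hbC]; exact h2) (by rw [hbC]; exact him) (n + 1)
      · intro n
        by_cases hfin : C.Finite
        · obtain ⟨k, hk2⟩ : ∃ k : ℕ, C.encard = k := ⟨C.ncard, hfin.cast_ncard_eq.symm⟩
          rw [period_iff_dvd (k := k) (by rw [hbC]; exact h2) (by rw [hbC]; exact hk2),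
            period_iff_dvd (k := k) (by rw [hbD]; exact h3) (by rw [hbD, ← h1]; exact hk2)]
        · have hDinf : D.Infinite := by
            apply Set.encard_eq_top_iff.mp
            rw [← h1, Set.Infinite.encard_eq hfin]
          rw [no_period (by rw [hbC]; exact hfin), no_period (by rw [hbD]; exact hDinf)]
    · have hCinf : C.Infinite := fun hfin => him (subset_im_of_finite hC hfin h2)
      have hDinf : D.Infinite := by
        apply Set.encard_eq_top_iff.mp
        rw [← h1, hCinf.encard_eq]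
      have him' : ¬ D ⊆ im β := fun h => him (h4.mpr h)
      rw [Set.not_subset] at him him'
      obtain ⟨a, ha, ha2⟩ := him
      obtain ⟨a', ha', ha2'⟩ := him'
      have haC := component_eq_of_mem hC ha
      have haD := component_eq_of_mem hD ha'
      exact ⟨a, a', haC, haD, pcompat_right (by rw [haC]; exact h2) (by rw [haC]; exact hCinf) ha2
        (by rw [haD]; exact h3) (by rw [haD]; exact hDinf) ha2'⟩
  · rw [Set.not_subset] at h1 h2
    obtain ⟨a, ha, ha2⟩ := h1
    obtain ⟨a', ha', ha2'⟩ := h2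
    have haC := component_eq_of_mem hC ha
    have haD := component_eq_of_mem hD ha'
    rcases le_or_gt C.encard D.encard with h5 | h5
    · exact ⟨a, a', haC, haD, pcompat_end_le ha2 ha2' (by rw [haC, haD]; exact h5)
        (by rw [haC, haD]; exact h4)⟩
    · have h6 : C.encard = D.encard + 1 := by
        apply le_antisymm h3
        exact Order.add_one_le_of_lt h5
      have h7 : 1 < C.encard := by
        rw [h6]
        have h8 : D.encard ≠ 0 := (nonempty_of_mem hD).encard_pos.ne'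
        have h9 : 1 ≤ D.encard := by
          exact Order.one_le_iff_ne_zero.mpr h8
        have h10 : D.encard ≠ ⊤ := ne_top_of_lt h5
        lift D.encard to ℕ using h10 with d hd
        have : 1 ≤ d := by exact_mod_cast h9
        exact_mod_cast Nat.lt_succ_of_le this
      rcases exists_ne_step hC h7 ha with h8 | ⟨p, hp⟩
      · exact absurd h8 ha2
      · have hpC : p ∈ C := edge_mem' hC ha hp
        exact ⟨p, a', component_eq_of_mem hC hpC, haD, pcompat_end_gt ha2 ha2' hp
          (by rw [haC, haD]; exact h6)⟩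

/-- gluing injections along a decomposition -/
theorem glue {A B K : Type*} (kA : A → K) (kB : B → K) (R : A → B → Prop)
    (h : ∀ k, ∃ f : {x // kA x = k} → {y // kB y = k}, Function.Injective f ∧
      ∀ x, R x.1 (f x).1) : ∃ f : A → B, Function.Injective f ∧ ∀ x, R x (f x) := by
  choose f hf1 hf2 using h
  refine ⟨fun x => (f (kA x) ⟨x, rfl⟩).1, ?_, fun x => hf2 (kA x) ⟨x, rfl⟩⟩
  intro x y hxy
  dsimp only at hxy
  have h1 : kA x = kA y := by
    rw [← (f (kA x) ⟨x, rfl⟩).2, ← (f (kA y) ⟨y, rfl⟩).2, hxy]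
  have h2 : ∀ (k : K) (hx : kA x = k), (f k ⟨x, hx⟩).1 = (f (kA x) ⟨x, rfl⟩).1 := by
    intro k hx; subst hx; rfl
  have h3 : f (kA y) ⟨x, h1⟩ = f (kA y) ⟨y, rfl⟩ := by
    apply Subtype.ext
    rw [h2 (kA y) h1, hxy]
  exact congrArg Subtype.val (hf1 _ h3)

open Classical in
/-- the kind of a component -/
noncomputable def pkind (α : X ≃. X) (C : Set X) : ℕ∞ × ℕ :=
  if C ⊆ dom α then (if C ⊆ im α then (C.encard, 0) else (C.encard, 1))
  else (if C.Infinite then (⊤, 2) else (0, 3))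

theorem pkind_zero {C : Set X} {e : ℕ∞} : pkind α C = (e, 0) ↔ C ⊆ dom α ∧ C ⊆ im α ∧ C.encard = e := by
  unfold pkind
  split_ifs with h1 h2 h2 <;> simp [h1, h2]

theorem pkind_one {C : Set X} {e : ℕ∞} : pkind α C = (e, 1) ↔ C ⊆ dom α ∧ ¬ C ⊆ im α ∧ C.encard = e := by
  unfold pkind
  split_ifs with h1 h2 h2 <;> simp [h1, h2]

theorem pkind_two {C : Set X} : pkind α C = (⊤, 2) ↔ ¬ C ⊆ dom α ∧ C.Infinite := by
  unfold pkind
  split_ifs with h1 h2 h2 <;> simp [h1, h2]

theorem pkind_three {C : Set X} : pkind α C = (0, 3) ↔ ¬ C ⊆ dom α ∧ ¬ C.Infinite := by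
  unfold pkind
  split_ifs with h1 h2 h2 <;> simp [h1, h2]

theorem exists_oneside (h : PCondLe α β) : ∃ f : NT α → {D : Set X // D ∈ components β},
    Function.Injective f ∧ ∀ C, Near α β C.1 (f C).1 := by
  classical
  obtain ⟨hcyc, hdbl, hright, hleft, hchain⟩ := h
  -- cardinal inequality gives an injection of a kind
  have main : ∀ (κ : ℕ∞ × ℕ) (P Q : Set X → Prop)
      (_ : ∀ C : NT α, pkind α C.1 = κ → P C.1) (_ : ∀ D, D ∈ components β → Q D → pkind β D = κ)
      (_ : #{C : Set X // C ∈ components α ∧ P C} ≤ #{C : Set X // C ∈ components β ∧ Q C})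
      (_ : ∀ C D : Set X, P C → Q D → Near α β C D),
      ∃ f : {C : NT α // pkind α C.1 = κ} → {D : {D : Set X // D ∈ components β} // pkind β D.1 = κ},
        Function.Injective f ∧ ∀ x, Near α β x.1.1 (f x).1.1 := by
    intro κ P Q h1 h2 ⟨e⟩ h4
    refine ⟨fun C => ⟨⟨(e ⟨C.1.1, C.1.2.1, h1 C.1 C.2⟩).1, (e ⟨C.1.1, C.1.2.1, h1 C.1 C.2⟩).2.1⟩,
      h2 _ (e ⟨C.1.1, C.1.2.1, h1 C.1 C.2⟩).2.1 (e ⟨C.1.1, C.1.2.1, h1 C.1 C.2⟩).2.2⟩, ?_, ?_⟩
    · intro C C' hCC
      have h5 : (e ⟨C.1.1, C.1.2.1, h1 C.1 C.2⟩).1 = (e ⟨C'.1.1, C'.1.2.1, h1 C'.1 C'.2⟩).1 :=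
        congrArg (fun t => t.1.1) hCC
      have h6 := congrArg Subtype.val (e.injective (Subtype.ext h5))
      exact Subtype.ext (Subtype.ext h6)
    · intro C
      exact h4 _ _ (h1 C.1 C.2) (e ⟨C.1.1, C.1.2.1, h1 C.1 C.2⟩).2.2
  apply glue (A := NT α) (B := {D : Set X // D ∈ components β}) (fun C : NT α => pkind α C.1)
    (fun D : {D : Set X // D ∈ components β} => pkind β D.1)
    (fun (C : NT α) (D : {D : Set X // D ∈ components β}) => Near α β C.1 D.1)
  intro κ
  by_cases hex : ∃ C : NT α, pkind α C.1 = κ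
  · obtain ⟨C, hC⟩ := hex
    by_cases hd : C.1 ⊆ dom α
    · by_cases him : C.1 ⊆ im α
      · have hκ : κ = (C.1.encard, 0) := by rw [← hC]; exact pkind_zero.mpr ⟨hd, him, rfl⟩
        by_cases hfin : C.1.Finite
        · obtain ⟨k, hk2⟩ : ∃ k : ℕ, C.1.encard = k := ⟨C.1.ncard, hfin.cast_ncard_eq.symm⟩
          rw [hk2] at hκ
          have hk1 : 1 ≤ k := by
            have h1 : C.1.encard ≠ 0 := (nonempty_of_mem C.2.1).encard_pos.ne'
            rw [hk2] at h1
            have : k ≠ 0 := by exact_mod_cast h1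
            omega
          apply main κ (fun D => D ⊆ dom α ∧ D.encard = k ∧ D ⊆ im α)
            (fun D => D ⊆ dom β ∧ D.encard = k ∧ D ⊆ im β)
          · intro D hD
            rw [hκ, pkind_zero] at hD
            exact ⟨hD.1, hD.2.2, hD.2.1⟩
          · rintro D _ ⟨h1, h2, h3⟩
            rw [hκ, pkind_zero]
            exact ⟨h1, h3, h2⟩
          · refine le_trans ?_ ((hcyc k hk1).trans ?_)
            · apply Cardinal.mk_le_of_injective
                (f := fun D : {D : Set X // D ∈ components α ∧ D ⊆ dom α ∧ D.encard = k ∧ D ⊆ im α} =>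
                (⟨D.1, D.2.1, D.2.2.1, D.2.2.2.1⟩ : {C : Set X // C ∈ components α ∧ C ⊆ dom α ∧ C.encard = k}))
              intro D D' hDD
              have h4 := congrArg Subtype.val hDD
              exact Subtype.ext h4
            · apply Cardinal.mk_le_of_injective
                (f := fun D : {C : Set X // C ∈ components β ∧ C ⊆ dom β ∧ C.encard = k} =>
                (⟨D.1, D.2.1, D.2.2.1, D.2.2.2, subset_im_of_finite D.2.1
                  (Set.finite_of_encard_eq_coe D.2.2.2) D.2.2.1⟩ :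
                  {D : Set X // D ∈ components β ∧ D ⊆ dom β ∧ D.encard = k ∧ D ⊆ im β}))
              intro D D' hDD
              have h4 := congrArg Subtype.val hDD
              exact Subtype.ext h4
          · rintro C D ⟨h1, h2, h3⟩ ⟨h4, h5, h6⟩
            exact Or.inl ⟨h2.trans h5.symm, h1, h4, iff_of_true h3 h6⟩
        · have hinf : C.1.Infinite := hfin
          rw [hinf.encard_eq] at hκ
          apply main κ (fun D => D.Infinite ∧ D ⊆ dom α ∧ D ⊆ im α)
            (fun D => D.Infinite ∧ D ⊆ dom β ∧ D ⊆ im β)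
          · intro D hD
            rw [hκ, pkind_zero] at hD
            exact ⟨Set.encard_eq_top_iff.mp hD.2.2, hD.1, hD.2.1⟩
          · rintro D _ ⟨h1, h2, h3⟩
            rw [hκ, pkind_zero]
            exact ⟨h2, h3, h1.encard_eq⟩
          · exact hdbl
          · rintro C D ⟨h1, h2, h3⟩ ⟨h4, h5, h6⟩
            exact Or.inl ⟨h1.encard_eq.trans h4.encard_eq.symm, h2, h5, iff_of_true h3 h6⟩
      · have hκ : κ = (C.1.encard, 1) := by rw [← hC]; exact pkind_one.mpr ⟨hd, him, rfl⟩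
        have hinf : C.1.Infinite := fun hfin => him (subset_im_of_finite C.2.1 hfin hd)
        rw [hinf.encard_eq] at hκ
        apply main κ (fun D => D.Infinite ∧ D ⊆ dom α ∧ ¬ D ⊆ im α)
          (fun D => D.Infinite ∧ D ⊆ dom β ∧ ¬ D ⊆ im β)
        · intro D hD
          rw [hκ, pkind_one] at hD
          exact ⟨Set.encard_eq_top_iff.mp hD.2.2, hD.1, hD.2.1⟩
        · rintro D _ ⟨h1, h2, h3⟩
          rw [hκ, pkind_one]
          exact ⟨h2, h3, h1.encard_eq⟩
        · exact hright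
        · rintro C D ⟨h1, h2, h3⟩ ⟨h4, h5, h6⟩
          exact Or.inl ⟨h1.encard_eq.trans h4.encard_eq.symm, h2, h5, iff_of_false h3 h6⟩
    · by_cases hinf : C.1.Infinite
      · have hκ : κ = (⊤, 2) := by rw [← hC]; exact pkind_two.mpr ⟨hd, hinf⟩
        apply main κ (fun D => D.Infinite ∧ ¬ D ⊆ dom α) (fun D => D.Infinite ∧ ¬ D ⊆ dom β)
        · intro D hD
          rw [hκ, pkind_two] at hD
          exact ⟨hD.2, hD.1⟩
        · rintro D _ ⟨h1, h2⟩
          rw [hκ, pkind_two]
          exact ⟨h2, h1⟩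
        · exact hleft
        · rintro C D ⟨h1, h2⟩ ⟨h4, h5⟩
          refine Or.inr ⟨h2, h5, ?_, ?_⟩
          · rw [h4.encard_eq]; simp
          · rw [h1.encard_eq]; simp
      · have hκ : κ = (0, 3) := by rw [← hC]; exact pkind_three.mpr ⟨hd, hinf⟩
        subst hκ
        have hfinA : ∀ x : {C : NT α // pkind α C.1 = (0, 3)}, x.1.1.Finite := fun x =>
          Set.not_infinite.mp (pkind_three.mp x.2).2
        have hfinB : ∀ x : {D : {D : Set X // D ∈ components β} // pkind β D.1 = (0, 3)},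
            x.1.1.Finite := fun x => Set.not_infinite.mp (pkind_three.mp x.2).2
        obtain ⟨f, hf1, hf2⟩ := exists_near_injection
          (A := {C : NT α // pkind α C.1 = (0, 3)})
          (B := {D : {D : Set X // D ∈ components β} // pkind β D.1 = (0, 3)})
          (fun x => x.1.1.ncard) (fun y => y.1.1.ncard) (by
            intro i j hij hi _
            obtain ⟨x, hx⟩ := hi
            have hi2 : 2 ≤ i := by
              rw [← hx]
              have h1 : 1 < x.1.1.encard := by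
                rcases x.1.2.2 with h1 | h1
                · exact absurd h1 (pkind_three.mp x.2).1
                · exact h1
              rw [← (hfinA x).cast_ncard_eq] at h1
              exact_mod_cast h1
            obtain ⟨i', rfl⟩ : ∃ i', i = i' + 1 := ⟨i - 1, by omega⟩
            refine le_trans ?_ ((hchain i' j (by omega) (by omega)).trans ?_)
            · apply Cardinal.mk_le_of_injective
                (f := fun z : {x : {C : NT α // pkind α C.1 = (0, 3)} //
                    i' + 1 ≤ x.1.1.ncard ∧ x.1.1.ncard ≤ j} =>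
                (⟨z.1.1.1, z.1.1.2.1, (pkind_three.mp z.1.2).1, by
                    rw [← (hfinA z.1).cast_ncard_eq]
                    exact_mod_cast z.2.1, by
                    rw [← (hfinA z.1).cast_ncard_eq]
                    exact_mod_cast z.2.2⟩ :
                  {C : Set X // C ∈ components α ∧ ¬ C ⊆ dom α ∧ ((i' + 1 : ℕ) : ℕ∞) ≤ C.encard ∧
                    C.encard ≤ (j : ℕ∞)}))
              intro z w hzw
              have h4 := congrArg Subtype.val hzw
              exact Subtype.ext (Subtype.ext (Subtype.ext h4))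
            · have hfin' : ∀ z : {C : Set X // C ∈ components β ∧ ¬ C ⊆ dom β ∧ ((i' : ℕ) : ℕ∞) ≤ C.encard ∧
                    C.encard ≤ ((j + 1 : ℕ) : ℕ∞)}, z.1.Finite := by
                intro z
                rw [← Set.encard_lt_top_iff]
                exact lt_of_le_of_lt z.2.2.2.2 (ENat.natCast_lt_top _)
              apply Cardinal.mk_le_of_injective
                (f := fun z : {C : Set X // C ∈ components β ∧ ¬ C ⊆ dom β ∧ ((i' : ℕ) : ℕ∞) ≤ C.encard ∧
                    C.encard ≤ ((j + 1 : ℕ) : ℕ∞)} =>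
                (⟨⟨⟨z.1, z.2.1⟩, pkind_three.mpr ⟨z.2.2.1, Set.not_infinite.mpr (hfin' z)⟩⟩, by
                  have h5 := z.2.2.2.1
                  have h6 := z.2.2.2.2
                  rw [← (hfin' z).cast_ncard_eq] at h5 h6
                  have h7 : i' ≤ z.1.ncard := by exact_mod_cast h5
                  have h8 : z.1.ncard ≤ j + 1 := by exact_mod_cast h6
                  exact ⟨Nat.succ_le_succ h7, h8⟩⟩ :
                  {y : {D : {D : Set X // D ∈ components β} // pkind β D.1 = (0, 3)} //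
                    i' + 1 ≤ y.1.1.ncard + 1 ∧ y.1.1.ncard ≤ j + 1}))
              intro z w hzw
              have h4 := congrArg (fun t => t.1.1.1) hzw
              exact Subtype.ext h4)
        refine ⟨f, hf1, fun x => Or.inr ⟨(pkind_three.mp x.2).1, (pkind_three.mp (f x).2).1, ?_, ?_⟩⟩
        · rw [← (hfinA x).cast_ncard_eq, ← (hfinB (f x)).cast_ncard_eq]
          exact_mod_cast (hf2 x).1
        · rw [← (hfinA x).cast_ncard_eq, ← (hfinB (f x)).cast_ncard_eq]
          exact_mod_cast (hf2 x).2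
  · push Not at hex
    exact ⟨fun x => absurd x.2 (hex x.1), fun x => absurd x.2 (hex x.1),
      fun x => absurd x.2 (hex x.1)⟩

theorem exists_fact_of_condLe (h1 : PCondLe α β) (h2 : PCondLe β α) : ∃ u v, Fact α β u v := by
  classical
  obtain ⟨f, hf, hfR⟩ := exists_oneside h1
  obtain ⟨g, hg, hgR⟩ := exists_oneside h2
  obtain ⟨M, hMR, hM1, hM2, hMA, hMB⟩ := mendelsohn_dulmage
    (A := {C : Set X // C ∈ components α}) (B := {D : Set X // D ∈ components β})
    (fun C D => Near α β C.1 D.1)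
    (fun C => C.1 ⊆ dom α ∨ 1 < C.1.encard) (fun D => D.1 ⊆ dom β ∨ 1 < D.1.encard)
    (fun C => f ⟨C.1.1, C.1.2, C.2⟩)
    (by
      intro C C' hCC
      have h3 := congrArg Subtype.val (hf hCC)
      exact Subtype.ext (Subtype.ext h3))
    (fun C => hfR ⟨C.1.1, C.1.2, C.2⟩)
    (fun D => g ⟨D.1.1, D.1.2, D.2⟩)
    (by
      intro C C' hCC
      have h3 := congrArg Subtype.val (hg hCC)
      exact Subtype.ext (Subtype.ext h3))
    (fun D => (hgR ⟨D.1.1, D.1.2, D.2⟩).symm)
  let I := {z : {C : Set X // C ∈ components α} × {D : Set X // D ∈ components β} // M z.1 z.2}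
  have hb : ∀ i : I, ∃ b : X × X, component α b.1 = i.1.1.1 ∧ component β b.2 = i.1.2.1 ∧
      PCompat α β b.1 b.2 := by
    intro i
    obtain ⟨b, b', h3, h4, h5⟩ := (hMR _ _ i.2).bases i.1.1.2 i.1.2.2
    exact ⟨(b, b'), h3, h4, h5⟩
  choose b hb1 hb2 hb3 using hb
  apply exists_fact_of_bases (fun i => (b i).1) (fun i => (b i).2)
  · intro i j hij
    rw [hb1, hb1] at hij
    have h3 : i.1.1 = j.1.1 := Subtype.ext hij
    have h4 := j.2
    rw [← h3] at h4
    exact Subtype.ext (Prod.ext h3 (hM1 _ _ _ i.2 h4))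
  · intro i j hij
    rw [hb2, hb2] at hij
    have h3 : i.1.2 = j.1.2 := Subtype.ext hij
    have h4 := j.2
    rw [← h3] at h4
    exact Subtype.ext (Prod.ext (hM2 _ _ _ i.2 h4) h3)
  · exact hb3
  · rintro x ⟨x', hx'⟩
    have hNT : component α x ⊆ dom α ∨ 1 < (component α x).encard := by
      by_cases h3 : 1 < (component α x).encard
      · exact Or.inr h3
      · left
        rw [not_lt, Set.encard_le_one_iff] at h3
        intro z hz
        rw [h3 z x hz (self_mem_component α x)]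
        exact ⟨x', hx'⟩
    obtain ⟨D, hD⟩ := hMA ⟨component α x, component_mem α x⟩ hNT
    refine ⟨⟨(⟨component α x, component_mem α x⟩, D), hD⟩, ?_⟩
    rw [hb1]
    exact self_mem_component α x
  · rintro y ⟨y', hy'⟩
    have hNT : component β y ⊆ dom β ∨ 1 < (component β y).encard := by
      by_cases h3 : 1 < (component β y).encard
      · exact Or.inr h3
      · left
        rw [not_lt, Set.encard_le_one_iff] at h3
        intro z hz
        rw [h3 z y hz (self_mem_component β y)]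
        exact ⟨y', hy'⟩
    obtain ⟨C, hC⟩ := hMB ⟨component β y, component_mem β y⟩ hNT
    refine ⟨⟨(C, ⟨component β y, component_mem β y⟩), hC⟩, ?_⟩
    rw [hb2]
    exact self_mem_component β y

end backward

theorem exists_fact_iff {α β : X ≃. X} : (∃ u v, Fact α β u v) ↔ PCondLe α β ∧ PCondLe β α :=
  ⟨fun ⟨_, _, h⟩ => ⟨h.condLe, h.swap.condLe⟩, fun h => exists_fact_of_condLe h.1 h.2⟩

end Pool.Agent.ISym
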